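import Pool.Agent.V7H70.Bic.Close
import Pool.Agent.H520R2.NM

/-!
# The approximation theorem

The vertices are pairs of a class and an element of `Fin q`. The positive test of `c : K → Fin q`
consists of the edges between vertices of the graph of `c`; the negative test of `y : E → Fin D`
consists of the edges `e` with `y e ≠ 0`.
-/

set_option autoImplicit false

namespace Pool.Agent.V7H70.Bic

open Finset Pool.Agent.H520R2 Pool.Agent.H520R2.NM

section

variable {K E : Type} [Fintype K] [DecidableEq K] [Fintype E] [DecidableEq E] {q : ℕ}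
  (a b : E → K × Fin q) {D : ℕ}

/-- positive tests -/
def posT (c : K → Fin q) : E → Bool := fun e =>
  decide (c (a e).1 = (a e).2 ∧ c (b e).1 = (b e).2)

/-- negative tests -/
def negT (y : E → Fin D) : E → Bool := fun e => decide ((y e : ℕ) ≠ 0)

/-- acceptance of a positive test -/
def PAcc (𝓕 : Finset (Finset (K × Fin q))) (c : K → Fin q) : Prop :=
  ∃ F ∈ 𝓕, ∀ v ∈ F, c v.1 = v.2

variable {a b}

theorem PAcc.exists_minz {𝓕 : Finset (Finset (K × Fin q))} {c : K → Fin q} (h : PAcc 𝓕 c) :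
    ∃ F ∈ minz 𝓕, ∀ v ∈ F, c v.1 = v.2 := by
  obtain ⟨F, hF, h1⟩ := h
  obtain ⟨G, hG, h2⟩ := Bic.exists_minz hF
  exact ⟨G, hG, fun v hv => h1 v (h2 hv)⟩

/-- `𝓕` approximates `f` outside the exceptional sets `Bp` and `Bn`. -/
def Apx (a b : E → K × Fin q) (D l : ℕ) (ε : ℝ) (Bp : Finset (K → Fin q))
    (Bn : Finset (E → Fin D)) (f : (E → Bool) → Bool) (𝓕 : Finset (Finset (K × Fin q))) : Prop :=
  Closed a b D l ε 𝓕 ∧ (∀ c, c ∉ Bp → f (posT a b c) = true → PAcc 𝓕 c) ∧
    ∀ y, y ∉ Bn → Acc a b 𝓕 ∅ y → f (negT y) = true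

omit [Fintype K] in
theorem Apx.mono {l : ℕ} {ε : ℝ} {Bp Bp' : Finset (K → Fin q)} {Bn Bn' : Finset (E → Fin D)}
    (h1 : Bp ⊆ Bp') (h2 : Bn ⊆ Bn') {f : (E → Bool) → Bool} {𝓕 : Finset (Finset (K × Fin q))}
    (h : Apx a b D l ε Bp Bn f 𝓕) : Apx a b D l ε Bp' Bn' f 𝓕 :=
  ⟨h.1, fun c hc => h.2.1 c (fun hh => hc (h1 hh)), fun y hy => h.2.2 y (fun hh => hy (h2 hh))⟩

/-- the allowed number of new exceptional negative tests in one step -/
noncomputable def stepN (K : Type) [Fintype K] [DecidableEq K] (q : ℕ) (E : Type) [Fintype E]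
    (D l : ℕ) (ε : ℝ) : ℝ :=
  nsets (K × Fin q) l * (ε * (D : ℝ) ^ Fintype.card E)

/-- the allowed number of new exceptional positive tests in one step -/
noncomputable def stepP (K : Type) [Fintype K] (q l z : ℕ) : ℝ :=
  (2 * ((l : ℝ) * z) ^ l) ^ 2 / (q : ℝ) ^ (l + 1) * (q : ℝ) ^ Fintype.card K

theorem stepN_nonneg {l : ℕ} {ε : ℝ} (hε : 0 ≤ ε) : 0 ≤ stepN K q E D l ε := by
  unfold stepN; positivity

omit [DecidableEq K] in
theorem stepP_nonneg {l z : ℕ} : 0 ≤ stepP K q l z := by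
  unfold stepP; positivity

/-- approximation of a base function -/
theorem apx_base {l : ℕ} {ε : ℝ} (hε : 0 ≤ ε) (hl : 2 ≤ l) (f : (E → Bool) → Bool)
    (hf : f ∈ VB E) : ∃ (𝓕 : Finset (Finset (K × Fin q))) (Bn : Finset (E → Fin D)),
      (Bn.card : ℝ) ≤ stepN K q E D l ε ∧ Apx a b D l ε ∅ Bn f 𝓕 := by
  classical
  have main : ∀ 𝓕0 : Finset (Finset (K × Fin q)), (∀ F ∈ 𝓕0, F.card ≤ l) →
      (∀ c, f (posT a b c) = true → PAcc 𝓕0 c) →
      (∀ y : E → Fin D, Acc a b 𝓕0 ∅ y → f (negT y) = true) →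
      ∃ (𝓕 : Finset (Finset (K × Fin q))) (Bn : Finset (E → Fin D)),
      (Bn.card : ℝ) ≤ stepN K q E D l ε ∧ Apx a b D l ε ∅ Bn f 𝓕 := by
    intro 𝓕0 h0 h1 h2
    obtain ⟨𝓖, hs, hcl, hcard⟩ := exists_closure (a := a) (b := b) (D := D) l hε 𝓕0 h0
    refine ⟨𝓖, univ.filter fun y : E → Fin D => Acc a b 𝓖 ∅ y ∧ ¬ Acc a b 𝓕0 ∅ y, hcard,
      hcl, ?_, ?_⟩
    · intro c _ hc
      obtain ⟨F, hF, h3⟩ := h1 c hc
      exact ⟨F, hs hF, h3⟩
    · intro y hy hacc
      apply h2
      by_contra hno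
      exact hy (by rw [mem_filter]; exact ⟨mem_univ _, hacc, hno⟩)
  rcases hf with ⟨v, rfl⟩ | ⟨e, rfl⟩
  · cases v with
    | false =>
      refine main ∅ (by simp) (fun c hc => by simp at hc) ?_
      rintro y ⟨F, hF, _⟩
      simp at hF
    | true =>
      exact main {∅} (by simp) (fun c _ => ⟨∅, by simp, by simp⟩) (fun y _ => rfl)
  · refine main {{a e, b e}} ?_ ?_ ?_
    · intro F hF
      rw [mem_singleton] at hF
      rw [hF]
      exact card_le_two.trans hl
    · intro c hc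
      simp only [posT, decide_eq_true_eq] at hc
      refine ⟨_, mem_singleton_self _, ?_⟩
      intro v hv
      rcases mem_insert.mp hv with rfl | hv
      · exact hc.1
      · rw [mem_singleton.mp hv]; exact hc.2
    · rintro y ⟨F, hF, hs⟩
      rw [mem_singleton] at hF
      subst hF
      simp only [negT, decide_eq_true_eq]
      exact hs e (by simp) (by simp) (by simp)

/-- the number of positive tests that contain the union of two minimal sets and more than `l`
vertices -/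
theorem pos_count {l z : ℕ} {ε : ℝ} {𝓕 𝓖 : Finset (Finset (K × Fin q))}
    (h1 : Closed a b D l ε 𝓕) (h2 : Closed a b D l ε 𝓖)
    (hab : ∀ e e', a e = a e' → b e = b e' → e = e') (hD : 0 < D) (hz : 2 ≤ z) (hq : 0 < q)
    (hε : (1 - (1 - 1 / (D : ℝ)) ^ (l * l)) ^ z ≤ ε) (hl : 1 ≤ l) (A : Finset (K → Fin q))
    (hA : ∀ c ∈ A, ∃ F ∈ minz 𝓕, ∃ G ∈ minz 𝓖, l < (F ∪ G).card ∧ ∀ v ∈ F ∪ G, c v.1 = v.2) :
    (A.card : ℝ) ≤ stepP K q l z := by
  classical
  have hqR : (0 : ℝ) < q := by exact_mod_cast hq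
  have hsub : A ⊆ ((minz 𝓕) ×ˢ (minz 𝓖)).biUnion fun p =>
      if l < (p.1 ∪ p.2).card then
        univ.filter fun c : K → Fin q => ∀ v ∈ p.1 ∪ p.2, c v.1 = v.2 else ∅ := by
    intro c hc
    obtain ⟨F, hF, G, hG, h3, h4⟩ := hA c hc
    rw [mem_biUnion]
    refine ⟨(F, G), mem_product.mpr ⟨hF, hG⟩, ?_⟩
    simp only [if_pos h3, mem_filter, mem_univ, true_and]
    exact h4
  have h3 : (A.card : ℝ) ≤ ∑ p ∈ (minz 𝓕) ×ˢ (minz 𝓖),
      (q : ℝ) ^ Fintype.card K / (q : ℝ) ^ (l + 1) := by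
    have h4 := (card_le_card hsub).trans card_biUnion_le
    have h5 : (A.card : ℝ) ≤ ∑ p ∈ (minz 𝓕) ×ˢ (minz 𝓖), (((if l < (p.1 ∪ p.2).card then
        univ.filter fun c : K → Fin q => ∀ v ∈ p.1 ∪ p.2, c v.1 = v.2 else ∅) :
          Finset (K → Fin q)).card : ℝ) := by
      exact_mod_cast h4
    refine h5.trans (sum_le_sum fun p _ => ?_)
    split_ifs with h6
    · rw [le_div_iff₀ (by positivity)]
      have h7 := card_graph (q := q) (p.1 ∪ p.2)
      have h8 : q ^ (l + 1) ≤ q ^ (p.1 ∪ p.2).card := Nat.pow_le_pow_right hq h6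
      have h9 := (Nat.mul_le_mul_left
        (univ.filter fun c : K → Fin q => ∀ v ∈ p.1 ∪ p.2, c v.1 = v.2).card h8).trans h7
      exact_mod_cast h9
    · rw [card_empty, Nat.cast_zero]
      positivity
  refine h3.trans ?_
  rw [sum_const, card_product, nsmul_eq_mul, stepP]
  have h10 : ((minz 𝓕).card : ℝ) ≤ 2 * ((l : ℝ) * z) ^ l := by
    exact_mod_cast card_minz_all h1 hab hD hz hε hl
  have h11 : ((minz 𝓖).card : ℝ) ≤ 2 * ((l : ℝ) * z) ^ l := by
    exact_mod_cast card_minz_all h2 hab hD hz hε hl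
  have h12 : (((minz 𝓕).card * (minz 𝓖).card : ℕ) : ℝ) ≤ (2 * ((l : ℝ) * z) ^ l) ^ 2 := by
    rw [sq]
    push_cast
    exact mul_le_mul h10 h11 (by positivity) (by positivity)
  calc _ ≤ (2 * ((l : ℝ) * z) ^ l) ^ 2 * ((q : ℝ) ^ Fintype.card K / (q : ℝ) ^ (l + 1)) :=
        mul_le_mul_of_nonneg_right h12 (by positivity)
    _ = _ := by ring

/-- The approximation theorem. -/
theorem approx {l z : ℕ} {ε : ℝ} (hε0 : 0 ≤ ε)
    (hab : ∀ e e', a e = a e' → b e = b e' → e = e') (hD : 0 < D) (hz : 2 ≤ z) (hq : 0 < q)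
    (hε : (1 - (1 - 1 / (D : ℝ)) ^ (l * l)) ^ z ≤ ε) (hl : 2 ≤ l)
    {L : List ((E → Bool) → Bool)} (hL : MProg (VB E) L) :
    ∃ (Bp : Finset (K → Fin q)) (Bn : Finset (E → Fin D)),
      (Bp.card : ℝ) ≤ L.length * stepP K q l z ∧
      (Bn.card : ℝ) ≤ (L.length + (Fintype.card E + 2)) * stepN K q E D l ε ∧
      ∀ f, Av (VB E) L f → ∃ 𝓕, Apx a b D l ε Bp Bn f 𝓕 := by
  classical
  induction hL with
  | nil =>
    -- all base functions
    let fn : Bool ⊕ E → ((E → Bool) → Bool) := Sum.elim (fun v _ => v) (fun e x => x e)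
    have hfn : ∀ i, fn i ∈ VB E := by
      rintro (v | e)
      · exact Or.inl ⟨v, rfl⟩
      · exact Or.inr ⟨e, rfl⟩
    choose 𝓕 Bn h1 h2 using fun i => apx_base (a := a) (b := b) (D := D) hε0 hl (fn i) (hfn i)
    refine ⟨∅, univ.biUnion Bn, by simp, ?_, ?_⟩
    · have h3 : ((univ.biUnion Bn).card : ℝ) ≤ ∑ i, ((Bn i).card : ℝ) := by
        exact_mod_cast card_biUnion_le
      refine h3.trans ((sum_le_sum fun i _ => h1 i).trans ?_)
      rw [sum_const, card_univ, nsmul_eq_mul, Fintype.card_sum, Fintype.card_bool]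
      simp only [List.length_nil, Nat.cast_zero, zero_add]
      push_cast
      rw [add_comm]
    · intro f hf
      rcases hf with hf | hf
      · obtain ⟨i, rfl⟩ : ∃ i, fn i = f := by
          rcases hf with ⟨v, rfl⟩ | ⟨e, rfl⟩
          · exact ⟨Sum.inl v, rfl⟩
          · exact ⟨Sum.inr e, rfl⟩
        exact ⟨𝓕 i, (h2 i).mono (empty_subset _) (subset_biUnion_of_mem _ (mem_univ i))⟩
      · simp at hf
  | @and L f g _ hf hg ih =>
    obtain ⟨Bp, Bn, h1, h2, h3⟩ := ih
    obtain ⟨𝓕, hF⟩ := h3 f hf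
    obtain ⟨𝓖, hG⟩ := h3 g hg
    obtain ⟨𝓗, hs, hcl, hcard⟩ := exists_closure (a := a) (b := b) (D := D) l hε0
      ((image₂ (· ∪ ·) 𝓕 𝓖).filter fun F => F.card ≤ l) (fun F hF => (mem_filter.mp hF).2)
    set 𝓗0 := (image₂ (· ∪ ·) 𝓕 𝓖).filter fun F => F.card ≤ l with h𝓗0
    refine ⟨Bp ∪ univ.filter fun c : K → Fin q => ∃ F ∈ minz 𝓕, ∃ G ∈ minz 𝓖,
        l < (F ∪ G).card ∧ ∀ v ∈ F ∪ G, c v.1 = v.2,
      Bn ∪ univ.filter fun y : E → Fin D => Acc a b 𝓗 ∅ y ∧ ¬ Acc a b 𝓗0 ∅ y, ?_, ?_, ?_⟩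
    · have h4 := pos_count hF.1 hG.1 hab hD hz hq hε (by omega)
        (univ.filter fun c : K → Fin q => ∃ F ∈ minz 𝓕, ∃ G ∈ minz 𝓖,
          l < (F ∪ G).card ∧ ∀ v ∈ F ∪ G, c v.1 = v.2) (fun c hc => (mem_filter.mp hc).2)
      have h5 := (Nat.cast_le (α := ℝ)).mpr (card_union_le Bp (univ.filter fun c : K → Fin q =>
        ∃ F ∈ minz 𝓕, ∃ G ∈ minz 𝓖, l < (F ∪ G).card ∧ ∀ v ∈ F ∪ G, c v.1 = v.2))
      push_cast at h5 ⊢
      simp only [List.length_cons]
      push_cast
      linarith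
    · have h5 := (Nat.cast_le (α := ℝ)).mpr (card_union_le Bn (univ.filter fun y : E → Fin D =>
        Acc a b 𝓗 ∅ y ∧ ¬ Acc a b 𝓗0 ∅ y))
      push_cast at h5 ⊢
      simp only [List.length_cons]
      push_cast
      change ((univ.filter fun y : E → Fin D => Acc a b 𝓗 ∅ y ∧ ¬ Acc a b 𝓗0 ∅ y).card : ℝ) ≤
        stepN K q E D l ε at hcard
      linarith
    · have hnew : Apx a b D l ε (Bp ∪ univ.filter fun c : K → Fin q => ∃ F ∈ minz 𝓕, ∃ G ∈ minz 𝓖,
          l < (F ∪ G).card ∧ ∀ v ∈ F ∪ G, c v.1 = v.2)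
          (Bn ∪ univ.filter fun y : E → Fin D => Acc a b 𝓗 ∅ y ∧ ¬ Acc a b 𝓗0 ∅ y)
          (fun x => f x && g x) 𝓗 := by
        refine ⟨hcl, ?_, ?_⟩
        · intro c hc hfg
          rw [mem_union, not_or, mem_filter] at hc
          rw [Bool.and_eq_true] at hfg
          obtain ⟨F, hF1, hF2⟩ := (hF.2.1 c hc.1 hfg.1).exists_minz
          obtain ⟨G, hG1, hG2⟩ := (hG.2.1 c hc.1 hfg.2).exists_minz
          have hun : ∀ v ∈ F ∪ G, c v.1 = v.2 := by
            intro v hv
            rcases mem_union.mp hv with hv | hv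
            · exact hF2 v hv
            · exact hG2 v hv
          have hle : (F ∪ G).card ≤ l := by
            by_contra hlt
            exact hc.2 ⟨mem_univ _, F, hF1, G, hG1, by omega, hun⟩
          refine ⟨F ∪ G, hs ?_, hun⟩
          rw [h𝓗0, mem_filter, mem_image₂]
          exact ⟨⟨F, (mem_filter.mp hF1).1, G, (mem_filter.mp hG1).1, rfl⟩, hle⟩
        · intro y hy hacc
          rw [mem_union, not_or, mem_filter] at hy
          have h6 : Acc a b 𝓗0 ∅ y := by
            by_contra hno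
            exact hy.2 ⟨mem_univ _, hacc, hno⟩
          obtain ⟨H, hH, hsat⟩ := h6
          rw [h𝓗0, mem_filter, mem_image₂] at hH
          obtain ⟨⟨F, hF1, G, hG1, rfl⟩, _⟩ := hH
          rw [Bool.and_eq_true]
          exact ⟨hF.2.2 y hy.1 ⟨F, hF1, fun e h7 h8 => hsat e (mem_union_left _ h7)
              (mem_union_left _ h8)⟩,
            hG.2.2 y hy.1 ⟨G, hG1, fun e h7 h8 => hsat e (mem_union_right _ h7)
              (mem_union_right _ h8)⟩⟩
      intro h hh
      rcases hh with hh | hh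
      · obtain ⟨𝓔, hE⟩ := h3 h (Or.inl hh)
        exact ⟨𝓔, hE.mono subset_union_left subset_union_left⟩
      · rcases List.mem_cons.mp hh with rfl | hh
        · exact ⟨𝓗, hnew⟩
        · obtain ⟨𝓔, hE⟩ := h3 h (Or.inr hh)
          exact ⟨𝓔, hE.mono subset_union_left subset_union_left⟩
  | @or L f g _ hf hg ih =>
    obtain ⟨Bp, Bn, h1, h2, h3⟩ := ih
    obtain ⟨𝓕, hF⟩ := h3 f hf
    obtain ⟨𝓖, hG⟩ := h3 g hg
    obtain ⟨𝓗, hs, hcl, hcard⟩ := exists_closure (a := a) (b := b) (D := D) l hε0 (𝓕 ∪ 𝓖)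
      (fun F hFF => by
        rcases mem_union.mp hFF with h | h
        · exact hF.1.1 F h
        · exact hG.1.1 F h)
    refine ⟨Bp, Bn ∪ univ.filter fun y : E → Fin D => Acc a b 𝓗 ∅ y ∧ ¬ Acc a b (𝓕 ∪ 𝓖) ∅ y,
      ?_, ?_, ?_⟩
    · have := stepP_nonneg (K := K) (q := q) (l := l) (z := z)
      simp only [List.length_cons]
      push_cast
      linarith
    · have h5 := (Nat.cast_le (α := ℝ)).mpr (card_union_le Bn (univ.filter fun y : E → Fin D =>
        Acc a b 𝓗 ∅ y ∧ ¬ Acc a b (𝓕 ∪ 𝓖) ∅ y))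
      push_cast at h5 ⊢
      simp only [List.length_cons]
      push_cast
      change ((univ.filter fun y : E → Fin D => Acc a b 𝓗 ∅ y ∧ ¬ Acc a b (𝓕 ∪ 𝓖) ∅ y).card : ℝ) ≤
        stepN K q E D l ε at hcard
      linarith
    · have hnew : Apx a b D l ε Bp
          (Bn ∪ univ.filter fun y : E → Fin D => Acc a b 𝓗 ∅ y ∧ ¬ Acc a b (𝓕 ∪ 𝓖) ∅ y)
          (fun x => f x || g x) 𝓗 := by
        refine ⟨hcl, ?_, ?_⟩
        · intro c hc hfg
          rw [Bool.or_eq_true] at hfg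
          rcases hfg with hfg | hfg
          · obtain ⟨F, hF1, hF2⟩ := hF.2.1 c hc hfg
            exact ⟨F, hs (mem_union_left _ hF1), hF2⟩
          · obtain ⟨F, hF1, hF2⟩ := hG.2.1 c hc hfg
            exact ⟨F, hs (mem_union_right _ hF1), hF2⟩
        · intro y hy hacc
          rw [mem_union, not_or, mem_filter] at hy
          have h6 : Acc a b (𝓕 ∪ 𝓖) ∅ y := by
            by_contra hno
            exact hy.2 ⟨mem_univ _, hacc, hno⟩
          obtain ⟨H, hH, hsat⟩ := h6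
          rw [Bool.or_eq_true]
          rcases mem_union.mp hH with hH | hH
          · exact Or.inl (hF.2.2 y hy.1 ⟨H, hH, hsat⟩)
          · exact Or.inr (hG.2.2 y hy.1 ⟨H, hH, hsat⟩)
      intro h hh
      rcases hh with hh | hh
      · obtain ⟨𝓔, hE⟩ := h3 h (Or.inl hh)
        exact ⟨𝓔, hE.mono subset_rfl subset_union_left⟩
      · rcases List.mem_cons.mp hh with rfl | hh
        · exact ⟨𝓗, hnew⟩
        · obtain ⟨𝓔, hE⟩ := h3 h (Or.inr hh)
          exact ⟨𝓔, hE.mono subset_rfl subset_union_left⟩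

open Classical in
/-- Monotone programs do not tell the positive from the negative tests. -/
theorem base {l z s : ℕ} {ε : ℝ} (hε0 : 0 ≤ ε)
    (hab : ∀ e e', a e = a e' → b e = b e' → e = e') (hD : 0 < D) (hz : 2 ≤ z)
    (hq : 2 * (l * z) ≤ q)
    (hε : (1 - (1 - 1 / (D : ℝ)) ^ (l * l)) ^ z ≤ ε) (hl : 2 ≤ l)
    {h : (E → Bool) → Bool} (hh : MComp (VB E) s h) :
    ((univ.filter fun c : K → Fin q => h (posT a b c) = true).card : ℝ) ≤
        s * stepP K q l z + 2 * (l * z) / q * (q : ℝ) ^ Fintype.card K ∨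
      ((univ.filter fun y : E → Fin D => h (negT y) = false).card : ℝ) ≤
        (s + (Fintype.card E + 2)) * stepN K q E D l ε := by
  have hlz : 0 < l * z := Nat.mul_pos (by omega) (by omega)
  have hq0 : 0 < q := by omega
  obtain ⟨L, hL, hLs, hav⟩ := hh
  obtain ⟨Bp, Bn, h1, h2, h3⟩ := approx (a := a) (b := b) (q := q) (D := D) hε0 hab hD hz hq0 hε hl hL
  obtain ⟨𝓕, hcl, hp, hn⟩ := h3 h hav
  have hLsR : (L.length : ℝ) ≤ s := by exact_mod_cast hLs
  by_cases hemp : (∅ : Finset (K × Fin q)) ∈ 𝓕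
  · right
    have h4 : (univ.filter fun y : E → Fin D => h (negT y) = false) ⊆ Bn := by
      intro y hy
      rw [mem_filter] at hy
      by_contra hno
      have := hn y hno ⟨∅, hemp, fun e he => by simp at he⟩
      rw [hy.2] at this
      exact Bool.false_ne_true this
    have h5 : ((univ.filter fun y : E → Fin D => h (negT y) = false).card : ℝ) ≤ Bn.card := by
      exact_mod_cast card_le_card h4
    refine h5.trans (h2.trans ?_)
    apply mul_le_mul_of_nonneg_right _ (stepN_nonneg hε0)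
    linarith
  · left
    have hqR : (0 : ℝ) < q := by exact_mod_cast hq0
    have h4 : (univ.filter fun c : K → Fin q => h (posT a b c) = true) ⊆
        Bp ∪ (Icc 1 l).biUnion fun r => ((minz 𝓕).filter fun F => F.card = r).biUnion fun F =>
          univ.filter fun c : K → Fin q => ∀ v ∈ F, c v.1 = v.2 := by
      intro c hc
      rw [mem_filter] at hc
      rw [mem_union]
      by_cases hcB : c ∈ Bp
      · exact Or.inl hcB
      · right
        obtain ⟨F, hF, h5⟩ := (hp c hcB hc.2).exists_minz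
        have hF1 := (mem_filter.mp hF).1
        have hFl := hcl.1 F hF1
        have hF0 : F.card ≠ 0 := by
          intro h0
          rw [card_eq_zero] at h0
          exact hemp (h0 ▸ hF1)
        rw [mem_biUnion]
        refine ⟨F.card, by rw [mem_Icc]; omega, ?_⟩
        rw [mem_biUnion]
        exact ⟨F, by simp [hF], by simpa using h5⟩
    have h5 : ((univ.filter fun c : K → Fin q => h (posT a b c) = true).card : ℝ) ≤ Bp.card +
        ∑ r ∈ Icc 1 l, ∑ F ∈ (minz 𝓕).filter (fun F => F.card = r),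
          ((univ.filter fun c : K → Fin q => ∀ v ∈ F, c v.1 = v.2).card : ℝ) := by
      have h6 := (card_le_card h4).trans (card_union_le _ _)
      have h7 : ((Icc 1 l).biUnion fun r => ((minz 𝓕).filter fun F => F.card = r).biUnion fun F =>
          univ.filter fun c : K → Fin q => ∀ v ∈ F, c v.1 = v.2).card ≤
          ∑ r ∈ Icc 1 l, ∑ F ∈ (minz 𝓕).filter (fun F => F.card = r),
          (univ.filter fun c : K → Fin q => ∀ v ∈ F, c v.1 = v.2).card :=
        card_biUnion_le.trans (sum_le_sum fun r _ => card_biUnion_le)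
      have h8 := h6.trans (Nat.add_le_add_left h7 _)
      exact_mod_cast h8
    have h6 : ∀ r ∈ Icc 1 l, ∑ F ∈ (minz 𝓕).filter (fun F => F.card = r),
          ((univ.filter fun c : K → Fin q => ∀ v ∈ F, c v.1 = v.2).card : ℝ) ≤
        ((l * z : ℕ) / (q : ℝ)) ^ r * (q : ℝ) ^ Fintype.card K := by
      intro r hr
      rw [mem_Icc] at hr
      have h7 : ∀ F ∈ (minz 𝓕).filter (fun F => F.card = r),
          ((univ.filter fun c : K → Fin q => ∀ v ∈ F, c v.1 = v.2).card : ℝ) ≤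
            (q : ℝ) ^ Fintype.card K / (q : ℝ) ^ r := by
        intro F hF
        rw [le_div_iff₀ (by positivity)]
        have h8 := card_graph (q := q) F
        rw [(mem_filter.mp hF).2] at h8
        exact_mod_cast h8
      refine (sum_le_sum h7).trans ?_
      rw [sum_const, nsmul_eq_mul]
      have h9 : (((minz 𝓕).filter (fun F => F.card = r)).card : ℝ) ≤ ((l * z : ℕ) : ℝ) ^ r := by
        have h10 := card_minz hcl hab hD hz hε r
        have h11 : z ^ r * r.factorial ≤ (l * z) ^ r := by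
          rw [mul_pow, mul_comm]
          refine Nat.mul_le_mul_right _ ((Nat.factorial_le_pow r).trans ?_)
          exact Nat.pow_le_pow_left hr.2 _
        exact_mod_cast h10.trans h11
      calc _ ≤ ((l * z : ℕ) : ℝ) ^ r * ((q : ℝ) ^ Fintype.card K / (q : ℝ) ^ r) :=
            mul_le_mul_of_nonneg_right h9 (by positivity)
        _ = _ := by rw [div_pow]; ring
    have h7 : ∑ r ∈ Icc 1 l, ((l * z : ℕ) / (q : ℝ)) ^ r ≤ 2 * (l * z) / q := by
      set t : ℝ := (l * z : ℕ) / (q : ℝ) with ht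
      have ht0 : 0 ≤ t := by positivity
      have ht1 : t ≤ 1 / 2 := by
        rw [ht, div_le_div_iff₀ hqR (by norm_num)]
        have : ((2 * (l * z) : ℕ) : ℝ) ≤ q := by exact_mod_cast hq
        push_cast at this ⊢
        linarith
      have h8 : ∀ m : ℕ, ∑ r ∈ Icc 1 m, t ^ r ≤ 2 * t - 2 * t * (1 / 2) ^ m := by
        intro m
        induction m with
        | zero => simp
        | succ m ih =>
          rw [sum_Icc_succ_top (by omega)]
          have h9 : t ^ (m + 1) ≤ t * (1 / 2) ^ m := by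
            rw [pow_succ, mul_comm]
            exact mul_le_mul_of_nonneg_left (pow_le_pow_left₀ ht0 ht1 m) ht0
          have h10 : 2 * t * (1 / 2) ^ (m + 1) = t * (1 / 2 : ℝ) ^ m := by
            rw [pow_succ]; ring
          linarith
      have h9 := h8 l
      have h10 : 0 ≤ 2 * t * (1 / 2) ^ l := by positivity
      have h11 : 2 * t = 2 * (l * z) / q := by rw [ht]; push_cast; ring
      linarith
    refine h5.trans ?_
    refine add_le_add (h1.trans (mul_le_mul_of_nonneg_right hLsR stepP_nonneg)) ?_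
    refine (sum_le_sum h6).trans ?_
    rw [← sum_mul]
    exact mul_le_mul_of_nonneg_right h7 (by positivity)

end

end Pool.Agent.V7H70.Bic
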