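import Pool.Agent.V7H70.Bic.Prob
import Pool.Agent.H520R2.Sun

/-!
# Families of vertex sets as approximators; closure; the number of minimal sets of a closed family
-/

set_option autoImplicit false

namespace Pool.Agent.V7H70.Bic

open Finset

section

variable {V E : Type} [Fintype V] [DecidableEq V] [Fintype E] [DecidableEq E]
  (a b : E → V) {D : ℕ}

/-- All edges with both ends in `F`, but not both ends in `S`, are present. -/
def Sat (S F : Finset V) (y : E → Fin D) : Prop :=
  ∀ e, a e ∈ F → b e ∈ F → ¬ (a e ∈ S ∧ b e ∈ S) → (y e : ℕ) ≠ 0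

/-- A set of the family is satisfied. -/
def Acc (𝓕 : Finset (Finset V)) (S : Finset V) (y : E → Fin D) : Prop :=
  ∃ F ∈ 𝓕, Sat a b S F y

open Classical in
/-- The family is closed. -/
def Closed (D l : ℕ) (ε : ℝ) (𝓕 : Finset (Finset V)) : Prop :=
  (∀ F ∈ 𝓕, F.card ≤ l) ∧ ∀ S : Finset V, S.card ≤ l →
    ((univ.filter fun y : E → Fin D => ¬ Acc a b 𝓕 S y).card : ℝ) ≤
      ε * (D : ℝ) ^ Fintype.card E → S ∈ 𝓕

variable {a b}

omit [Fintype V] [DecidableEq V] [Fintype E] [DecidableEq E] in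
theorem Acc.mono {𝓕 𝓖 : Finset (Finset V)} (h : 𝓕 ⊆ 𝓖) {S : Finset V} {y : E → Fin D}
    (hy : Acc a b 𝓕 S y) : Acc a b 𝓖 S y := by
  obtain ⟨F, hF, h1⟩ := hy
  exact ⟨F, h hF, h1⟩

/-- The number of sets of size at most `l`. -/
def nsets (V : Type) [Fintype V] [DecidableEq V] (l : ℕ) : ℕ :=
  ((univ : Finset (Finset V)).filter fun S => S.card ≤ l).card

open Classical in
/-- The closure. -/
theorem exists_closure (l : ℕ) {ε : ℝ} (hε : 0 ≤ ε) (𝓕 : Finset (Finset V))
    (hF : ∀ F ∈ 𝓕, F.card ≤ l) :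
    ∃ 𝓖, 𝓕 ⊆ 𝓖 ∧ Closed a b D l ε 𝓖 ∧
      ((univ.filter fun y : E → Fin D => Acc a b 𝓖 ∅ y ∧ ¬ Acc a b 𝓕 ∅ y).card : ℝ) ≤
        nsets V l * (ε * (D : ℝ) ^ Fintype.card E) := by
  have key : ∀ (n : ℕ) (𝓕 : Finset (Finset V)), (∀ F ∈ 𝓕, F.card ≤ l) →
      ((univ : Finset (Finset V)).filter fun S => S.card ≤ l ∧ S ∉ 𝓕).card ≤ n →
      ∃ 𝓖, 𝓕 ⊆ 𝓖 ∧ Closed a b D l ε 𝓖 ∧
      ((univ.filter fun y : E → Fin D => Acc a b 𝓖 ∅ y ∧ ¬ Acc a b 𝓕 ∅ y).card : ℝ) ≤
        n * (ε * (D : ℝ) ^ Fintype.card E) := by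
    intro n
    induction n with
    | zero =>
      intro 𝓕 hF hn
      refine ⟨𝓕, subset_rfl, ⟨hF, ?_⟩, ?_⟩
      · intro S hS _
        by_contra hSF
        have : S ∈ ((univ : Finset (Finset V)).filter fun S => S.card ≤ l ∧ S ∉ 𝓕) := by
          simp [hS, hSF]
        have := card_pos.mpr ⟨S, this⟩
        omega
      · have : (univ.filter fun y : E → Fin D => Acc a b 𝓕 ∅ y ∧ ¬ Acc a b 𝓕 ∅ y) = ∅ := by
          rw [filter_eq_empty_iff]
          rintro y _ ⟨h1, h2⟩
          exact h2 h1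
        rw [this]
        simp
    | succ n ih =>
      intro 𝓕 hF hn
      by_cases hcl : Closed a b D l ε 𝓕
      · refine ⟨𝓕, subset_rfl, hcl, ?_⟩
        have : (univ.filter fun y : E → Fin D => Acc a b 𝓕 ∅ y ∧ ¬ Acc a b 𝓕 ∅ y) = ∅ := by
          rw [filter_eq_empty_iff]
          rintro y _ ⟨h1, h2⟩
          exact h2 h1
        rw [this]
        simp only [card_empty, Nat.cast_zero]
        positivity
      · simp only [Closed, not_and, not_forall] at hcl
        obtain ⟨S, hS, hbad, hSF⟩ := hcl hF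
        have hF' : ∀ F ∈ insert S 𝓕, F.card ≤ l := by
          intro F hFF
          rcases mem_insert.mp hFF with rfl | h
          · exact hS
          · exact hF F h
        have hn' : ((univ : Finset (Finset V)).filter fun T => T.card ≤ l ∧ T ∉ insert S 𝓕).card
            ≤ n := by
          have hsub : ((univ : Finset (Finset V)).filter fun T => T.card ≤ l ∧ T ∉ insert S 𝓕) ⊂
              ((univ : Finset (Finset V)).filter fun T => T.card ≤ l ∧ T ∉ 𝓕) := by
            rw [ssubset_iff_of_subset]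
            · refine ⟨S, by simp [hS, hSF], by simp⟩
            · intro T hT
              simp only [mem_filter, mem_univ, true_and, mem_insert, not_or] at hT ⊢
              exact ⟨hT.1, hT.2.2⟩
          have := card_lt_card hsub
          omega
        obtain ⟨𝓖, h1, h2, h3⟩ := ih (insert S 𝓕) hF' hn'
        refine ⟨𝓖, (subset_insert S 𝓕).trans h1, h2, ?_⟩
        have hsub : (univ.filter fun y : E → Fin D => Acc a b 𝓖 ∅ y ∧ ¬ Acc a b 𝓕 ∅ y) ⊆
            (univ.filter fun y : E → Fin D => Acc a b 𝓖 ∅ y ∧ ¬ Acc a b (insert S 𝓕) ∅ y) ∪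
            (univ.filter fun y : E → Fin D => ¬ Acc a b 𝓕 S y) := by
          intro y hy
          simp only [mem_filter, mem_univ, true_and, mem_union] at hy ⊢
          by_cases h4 : Acc a b (insert S 𝓕) ∅ y
          · right
            intro h5
            obtain ⟨F, hFF, h6⟩ := h4
            rcases mem_insert.mp hFF with rfl | h7
            · obtain ⟨G, hG, h8⟩ := h5
              refine hy.2 ⟨G, hG, ?_⟩
              intro e he1 he2 _
              by_cases h9 : a e ∈ F ∧ b e ∈ F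
              · exact h6 e h9.1 h9.2 (by simp)
              · exact h8 e he1 he2 h9
            · exact hy.2 ⟨F, h7, h6⟩
          · exact Or.inl ⟨hy.1, h4⟩
        have h4 := (card_le_card hsub).trans (card_union_le _ _)
        have h5 : ((univ.filter fun y : E → Fin D => Acc a b 𝓖 ∅ y ∧ ¬ Acc a b 𝓕 ∅ y).card : ℝ) ≤
            ((univ.filter fun y : E → Fin D => Acc a b 𝓖 ∅ y ∧ ¬ Acc a b (insert S 𝓕) ∅ y).card : ℝ) +
            ((univ.filter fun y : E → Fin D => ¬ Acc a b 𝓕 S y).card : ℝ) := by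
          exact_mod_cast h4
        push_cast
        linarith
  refine key (nsets V l) 𝓕 hF ?_
  unfold nsets
  apply card_le_card
  intro S hS
  simp only [mem_filter, mem_univ, true_and] at hS ⊢
  exact hS.1

open Classical in
/-- The minimal sets of a family. -/
noncomputable def minz (𝓕 : Finset (Finset V)) : Finset (Finset V) :=
  𝓕.filter fun F => ∀ G ∈ 𝓕, G ⊆ F → G = F

theorem exists_minz {𝓕 : Finset (Finset V)} {F : Finset V} (hF : F ∈ 𝓕) :
    ∃ G ∈ minz 𝓕, G ⊆ F := by
  classical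
  obtain ⟨G, hG, hmin⟩ := exists_min_image (𝓕.filter fun G => G ⊆ F) card
    ⟨F, by simp [hF]⟩
  rw [mem_filter] at hG
  refine ⟨G, ?_, hG.2⟩
  rw [minz, mem_filter]
  refine ⟨hG.1, fun H hH hHG => ?_⟩
  have := hmin H (by rw [mem_filter]; exact ⟨hH, hHG.trans hG.2⟩)
  exact eq_of_subset_of_card_le hHG this

/-- A closed family has few minimal sets of each size. -/
theorem card_minz {l z : ℕ} {ε : ℝ} {𝓕 : Finset (Finset V)} (hcl : Closed a b D l ε 𝓕)
    (hab : ∀ e e', a e = a e' → b e = b e' → e = e') (hD : 0 < D) (hz : 2 ≤ z)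
    (hε : (1 - (1 - 1 / (D : ℝ)) ^ (l * l)) ^ z ≤ ε) (r : ℕ) :
    ((minz 𝓕).filter fun F => F.card = r).card ≤ z ^ r * r.factorial := by
  classical
  by_contra hcon
  push Not at hcon
  obtain ⟨P, hPA, hPz, Z, hZ1, hZ2⟩ := Pool.Agent.H520R2.sunflower z (by omega) r
    ((minz 𝓕).filter fun F => F.card = r) (fun S hS => (mem_filter.mp hS).2.le) hcon
  have hP1 : ∀ S ∈ P, S ∈ 𝓕 ∧ (∀ G ∈ 𝓕, G ⊆ S → G = S) ∧ S.card = r := by
    intro S hS
    have h1 := mem_filter.mp (hPA hS)
    have h2 := mem_filter.mp h1.1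
    exact ⟨h2.1, h2.2, h1.2⟩
  obtain ⟨S, hS, T, hT, hST⟩ : ∃ S ∈ P, ∃ T ∈ P, S ≠ T := by
    have : 1 < P.card := by omega
    obtain ⟨S, T, hS, hT, h⟩ := one_lt_card_iff.mp this
    exact ⟨S, hS, T, hT, h⟩
  have hlP : ∀ S ∈ P, S.card ≤ l := fun S hS => hcl.1 S (hP1 S hS).1
  have hZF : Z ∈ 𝓕 := by
    refine hcl.2 Z ((card_le_card (hZ1 S hS)).trans (hlP S hS)) ?_
    let I : Finset V → Finset E := fun S => univ.filter fun e =>
      a e ∈ S ∧ b e ∈ S ∧ ¬ (a e ∈ Z ∧ b e ∈ Z)
    have hI : ∀ S ∈ P, (I S).card ≤ l * l := by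
      intro S hS
      have h1 : (I S).card ≤ (S ×ˢ S).card := by
        apply card_le_card_of_injOn (fun e => (a e, b e))
        · intro e he
          simp only [I, coe_filter, mem_univ, true_and, Set.mem_ofPred_eq] at he
          simp only [coe_product, Set.mem_prod, mem_coe]
          exact ⟨he.1, he.2.1⟩
        · intro e _ e' _ h
          have h' : (a e, b e) = (a e', b e') := h
          exact hab e e' (congrArg Prod.fst h') (congrArg Prod.snd h')
      rw [card_product] at h1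
      exact h1.trans (Nat.mul_le_mul (hlP S hS) (hlP S hS))
    have hdis : ∀ S ∈ P, ∀ T ∈ P, S ≠ T → Disjoint (I S) (I T) := by
      intro S hS T hT hne
      rw [Finset.disjoint_left]
      intro e he he'
      simp only [I, mem_filter, mem_univ, true_and] at he he'
      exact he.2.2 ⟨hZ2 S hS T hT hne (mem_inter.mpr ⟨he.1, he'.1⟩),
        hZ2 S hS T hT hne (mem_inter.mpr ⟨he.2.1, he'.2.1⟩)⟩
    have h2 := card_allzero' (D := D) P I (l * l) hD hI hdis
      (univ.filter fun y : E → Fin D => ¬ Acc a b 𝓕 Z y) (by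
        intro y hy S hS
        rw [mem_filter] at hy
        by_contra hno
        push Not at hno
        refine hy.2 ⟨S, (hP1 S hS).1, fun e h1 h2 h3 => hno e ?_⟩
        simp only [I, mem_filter, mem_univ, true_and]
        exact ⟨h1, h2, h3⟩)
    rw [hPz] at h2
    refine h2.trans ?_
    exact mul_le_mul_of_nonneg_right hε (by positivity)
  have h1 := (hP1 S hS).2.1 Z hZF (hZ1 S hS)
  have h2 := (hP1 T hT).2.1 Z hZF (hZ1 T hT)
  exact hST (h1.symm.trans h2)

/-- A closed family has few minimal sets. -/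
theorem card_minz_all {l z : ℕ} {ε : ℝ} {𝓕 : Finset (Finset V)} (hcl : Closed a b D l ε 𝓕)
    (hab : ∀ e e', a e = a e' → b e = b e' → e = e') (hD : 0 < D) (hz : 2 ≤ z)
    (hε : (1 - (1 - 1 / (D : ℝ)) ^ (l * l)) ^ z ≤ ε) (hl : 1 ≤ l) :
    (minz 𝓕).card ≤ 2 * (l * z) ^ l := by
  classical
  have h1 : minz 𝓕 ⊆ (range (l + 1)).biUnion fun r => (minz 𝓕).filter fun F => F.card = r := by
    intro F hF
    rw [mem_biUnion]
    refine ⟨F.card, ?_, by simp [hF]⟩
    have := hcl.1 F (mem_filter.mp hF).1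
    rw [mem_range]
    omega
  have h2 : (minz 𝓕).card ≤ ∑ r ∈ range (l + 1), z ^ r * r.factorial := by
    refine (card_le_card h1).trans (card_biUnion_le.trans ?_)
    exact sum_le_sum fun r _ => card_minz hcl hab hD hz hε r
  have h3 : ∀ n, n ≤ l → ∑ r ∈ range (n + 1), z ^ r * r.factorial ≤ 2 * (l * z) ^ n := by
    intro n
    induction n with
    | zero => simp
    | succ n ih =>
      intro hn
      rw [sum_range_succ]
      have h4 := ih (by omega)
      have h5 : z ^ (n + 1) * (n + 1).factorial ≤ (l * z) ^ (n + 1) := by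
        rw [mul_pow, mul_comm]
        refine Nat.mul_le_mul_right _ ?_
        refine (Nat.factorial_le_pow (n + 1)).trans ?_
        exact Nat.pow_le_pow_left hn _
      have h6 : 2 * (l * z) ^ n ≤ (l * z) ^ (n + 1) := by
        rw [pow_succ, mul_comm ((l * z) ^ n)]
        refine Nat.mul_le_mul_right _ ?_
        nlinarith
      omega
  exact h2.trans (h3 l le_rfl)

end

end Pool.Agent.V7H70.Bic
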