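import Pool.Agent.V7H70.Bic.Approx

/-!
# The hard distribution for the coloured biclique function, many blocks
-/

set_option autoImplicit false

namespace Pool.Agent.V7H70.Bic

open Finset Pool.Agent.H520R2 Pool.Agent.H520R2.NM

/-- the variables: an element of a left class and an element of a right class -/
abbrev Var (k M q : ℕ) : Type := (Fin k × (Fin M × Fin q)) × (Fin k × (Fin M × Fin q))

/-- the variables of a block -/
abbrev BVar (k q : ℕ) : Type := (Fin k × Fin q) × (Fin k × Fin q)

/-- the coloured biclique function -/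
def Bicl {k M q : ℕ} (x : Var k M q → Bool) : Prop :=
  ∃ α β : Fin k → Fin M × Fin q, ∀ s t, x ((s, α s), (t, β t)) = true

section

variable {k M q D : ℕ}

/-- left end -/
def endL (e : BVar k q) : (Fin k ⊕ Fin k) × Fin q := (Sum.inl e.1.1, e.1.2)

/-- right end -/
def endR (e : BVar k q) : (Fin k ⊕ Fin k) × Fin q := (Sum.inr e.2.1, e.2.2)

theorem end_inj (e e' : BVar k q) (h1 : endL e = endL e') (h2 : endR e = endR e') : e = e' := by
  obtain ⟨⟨s, i⟩, ⟨t, j⟩⟩ := e
  obtain ⟨⟨s', i'⟩, ⟨t', j'⟩⟩ := e'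
  simp only [endL, endR, Prod.mk.injEq, Sum.inl.injEq, Sum.inr.injEq] at h1 h2
  simp [h1, h2]

/-- the block of a variable -/
def blk (v : Var k M q) : Fin (M * M) := finProdFinEquiv (v.1.2.1, v.2.2.1)

/-- the position of a variable in its block -/
def loc (v : Var k M q) : BVar k q := ((v.1.1, v.1.2.2), (v.2.1, v.2.2.2))

/-- the variable with a given position in a given block -/
def emb (j : Fin (M * M)) (e : BVar k q) : Var k M q :=
  ((e.1.1, ((finProdFinEquiv.symm j).1, e.1.2)), (e.2.1, ((finProdFinEquiv.symm j).2, e.2.2)))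

theorem blk_emb (j : Fin (M * M)) (e : BVar k q) : blk (emb j e) = j := by
  change finProdFinEquiv (finProdFinEquiv.symm j) = j
  exact Equiv.apply_symm_apply _ _

theorem loc_emb (j : Fin (M * M)) (e : BVar k q) : loc (emb j e) = e := rfl

theorem emb_loc {j : Fin (M * M)} {v : Var k M q} (h : blk v = j) : emb j (loc v) = v := by
  subst h
  simp [emb, loc, blk]

/-- the input with random bits in the blocks before `j`, with `w` in block `j`, and with zeros
elsewhere -/
def mixed (j : Fin (M * M)) (y : Var k M q → Fin D) (w : BVar k q → Bool) : Var k M q → Bool :=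
  fun v => if blk v < j then decide ((y v : ℕ) ≠ 0) else if blk v = j then w (loc v) else false

/-- the random bits of block `j` -/
def part (j : Fin (M * M)) (y : Var k M q → Fin D) : BVar k q → Fin D := fun e => y (emb j e)

/-- replacing the random bits of block `j` -/
def upd (j : Fin (M * M)) (y : Var k M q → Fin D) (w : BVar k q → Fin D) : Var k M q → Fin D :=
  fun v => if blk v = j then w (loc v) else y v

theorem upd_upd (j : Fin (M * M)) (y : Var k M q → Fin D) (w : BVar k q → Fin D) :
    upd j (upd j y w) (part j y) = y := by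
  funext v
  by_cases h : blk v = j
  · simp only [upd, if_pos h, part]
    rw [emb_loc h]
  · simp only [upd, if_neg h]

theorem part_upd (j : Fin (M * M)) (y : Var k M q → Fin D) (w : BVar k q → Fin D) :
    part j (upd j y w) = w := by
  funext e
  simp [part, upd, blk_emb, loc_emb]

theorem mixed_upd (j : Fin (M * M)) (y : Var k M q → Fin D) (w' : BVar k q → Fin D)
    (w : BVar k q → Bool) : mixed j (upd j y w') w = mixed j y w := by
  funext v
  by_cases h : blk v < j
  · simp only [mixed, if_pos h, upd, if_neg (ne_of_lt h)]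
  · simp only [mixed, if_neg h]

/-- the chain of inputs -/
def chn (y : Var k M q → Fin D) (i : ℕ) : Var k M q → Bool :=
  fun v => decide ((blk v : ℕ) < i ∧ (y v : ℕ) ≠ 0)

theorem chn_mono (y : Var k M q → Fin D) (i : ℕ) : chn y i ≤ chn y (i + 1) := by
  intro v
  simp only [chn]
  by_cases h : (blk v : ℕ) < i ∧ (y v : ℕ) ≠ 0
  · have h' : (blk v : ℕ) < i + 1 ∧ (y v : ℕ) ≠ 0 := ⟨by omega, h.2⟩
    simp [h, h']
  · rw [decide_eq_false h]
    exact Bool.false_le _

theorem mixed_zero (j : Fin (M * M)) (y : Var k M q → Fin D) :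
    mixed j y (fun _ => false) = chn y j := by
  funext v
  by_cases h : blk v < j
  · have h' : (blk v : ℕ) < j := h
    simp [mixed, chn, if_pos h, h']
  · have h' : ¬ (blk v : ℕ) < j := h
    simp [mixed, chn, if_neg h, h']

theorem mixed_part (j : Fin (M * M)) (y : Var k M q → Fin D) :
    mixed j y (negT (part j y)) = chn y ((j : ℕ) + 1) := by
  funext v
  by_cases h : blk v < j
  · have h' : (blk v : ℕ) < j + 1 := by
      have : (blk v : ℕ) < j := h
      omega
    simp [mixed, chn, if_pos h, h']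
  · by_cases h1 : blk v = j
    · have h' : (blk v : ℕ) < j + 1 := by rw [h1]; omega
      simp only [mixed, if_neg h, if_pos h1, negT, part, emb_loc h1, chn]
      simp [h']
    · have h' : ¬ (blk v : ℕ) < j + 1 := by
        have h2 : ¬ (blk v : ℕ) < j := h
        have h3 : (blk v : ℕ) ≠ j := fun h4 => h1 (Fin.ext h4)
        omega
      simp [mixed, chn, if_neg h, if_neg h1, h']

theorem mixed_mono (j : Fin (M * M)) (y : Var k M q → Fin D) (w : BVar k q → Bool) :
    mixed j y (fun _ => false) ≤ mixed j y w := by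
  intro v
  simp only [mixed]
  split_ifs
  · exact le_rfl
  · exact Bool.false_le _
  · exact le_rfl

theorem mixed_comp (j : Fin (M * M)) (y : Var k M q → Fin D) {s : ℕ}
    {g : (Var k M q → Bool) → Bool} (hg : MComp (VB (Var k M q)) s g) :
    MComp (VB (BVar k q)) s (fun w => g (mixed j y w)) := by
  refine hg.comp (mixed j y) ?_
  rintro f (⟨v, rfl⟩ | ⟨v, rfl⟩)
  · exact Or.inl ⟨v, rfl⟩
  · by_cases h : blk v < j
    · left
      refine ⟨decide ((y v : ℕ) ≠ 0), ?_⟩
      funext w
      simp [mixed, if_pos h]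
    · by_cases h1 : blk v = j
      · right
        refine ⟨loc v, ?_⟩
        funext w
        simp [mixed, if_neg h, if_pos h1]
      · left
        refine ⟨false, ?_⟩
        funext w
        simp [mixed, if_neg h, if_neg h1]

/-- Averaging over the block. -/
theorem card_upd (j : Fin (M * M)) (Q : (Var k M q → Fin D) → Prop) [DecidablePred Q]
    [∀ y, DecidablePred fun w : BVar k q → Fin D => Q (upd j y w)] :
    ∑ y : Var k M q → Fin D, (univ.filter fun w : BVar k q → Fin D => Q (upd j y w)).card =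
      (univ.filter Q).card * D ^ Fintype.card (BVar k q) := by
  classical
  have h1 : ∑ y : Var k M q → Fin D, (univ.filter fun w : BVar k q → Fin D => Q (upd j y w)).card =
      ((univ : Finset ((Var k M q → Fin D) × (BVar k q → Fin D))).filter
        fun p => Q (upd j p.1 p.2)).card := by
    rw [card_filter, Fintype.sum_prod_type]
    refine sum_congr rfl fun y _ => ?_
    rw [card_filter]
  have h2 : ((univ : Finset ((Var k M q → Fin D) × (BVar k q → Fin D))).filter
        fun p => Q (upd j p.1 p.2)).card =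
      ((univ.filter Q) ×ˢ (univ : Finset (BVar k q → Fin D))).card := by
    refine card_bij' (fun p _ => (upd j p.1 p.2, part j p.1)) (fun p _ => (upd j p.1 p.2, part j p.1))
      ?_ ?_ ?_ ?_
    · rintro ⟨y, w⟩ h
      rw [mem_filter] at h
      rw [mem_product, mem_filter]
      exact ⟨⟨mem_univ _, h.2⟩, mem_univ _⟩
    · rintro ⟨y, w⟩ h
      rw [mem_product, mem_filter] at h
      rw [mem_filter]
      refine ⟨mem_univ _, ?_⟩
      change Q (upd j (upd j y w) (part j y))
      rw [upd_upd]
      exact h.1.2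
    · rintro ⟨y, w⟩ _
      exact Prod.ext (upd_upd j y w) (part_upd j y w)
    · rintro ⟨y, w⟩ _
      exact Prod.ext (upd_upd j y w) (part_upd j y w)
  rw [h1, h2, card_product, card_univ, Fintype.card_fun, Fintype.card_fin]

theorem changes_le {ι : Type} {n : ℕ} (C : Circuit ι n) (x : ℕ → ι → Bool)
    (hx : ∀ i, x i ≤ x (i + 1)) (m : ℕ) :
    ((range m).filter fun i => C.probes (x (i + 1)) ≠ C.probes (x i)).card ≤ C.rank (x m) := by
  induction m with
  | zero => simp
  | succ m ih =>
    rw [range_add_one, filter_insert]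
    split_ifs with h
    · refine (card_insert_le _ _).trans ?_
      rcases C.rank_mono (hx m) with h1 | ⟨_, h1, _⟩
      · omega
      · exact absurd h1.symm h
    · rcases C.rank_mono (hx m) with h1 | ⟨h1, _, _⟩
      · omega
      · omega

open Classical in
/-- One block. -/
theorem one_block {l z s : ℕ} {ε δ : ℝ} (hε0 : 0 ≤ ε) (hD : 0 < D) (hz : 2 ≤ z)
    (hq : 2 * (l * z) ≤ q) (hε : (1 - (1 - 1 / (D : ℝ)) ^ (l * l)) ^ z ≤ ε) (hl : 2 ≤ l)
    (hδ1 : s * stepP (Fin k ⊕ Fin k) q l z + 2 * (l * z) / q * (q : ℝ) ^ (k + k) ≤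
      δ * (q : ℝ) ^ (k + k))
    (hδ2 : (s + (Fintype.card (BVar k q) + 2)) * stepN (Fin k ⊕ Fin k) q (BVar k q) D l ε ≤
      δ * (D : ℝ) ^ Fintype.card (BVar k q))
    {N : ℕ} (C : Circuit (Var k M q) N) (out : Wire (Var k M q) N)
    (hs : C.size + C.fanins.sum ≤ s) (j : Fin (M * M)) (y : Var k M q → Fin D) :
    ((univ.filter fun c : Fin k ⊕ Fin k → Fin q =>
        out.eval (mixed j y (posT endL endR c)) (C.vals (mixed j y (posT endL endR c))) =
          true).card : ℝ) * (D : ℝ) ^ Fintype.card (BVar k q) +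
      ((univ.filter fun w : BVar k q → Fin D =>
        out.eval (mixed j y (negT w)) (C.vals (mixed j y (negT w))) = false ∧
          C.probes (mixed j y (negT w)) = C.probes (mixed j y (fun _ => false))).card : ℝ) *
        (q : ℝ) ^ (k + k) ≤
      (1 + δ) * (q : ℝ) ^ (k + k) * (D : ℝ) ^ Fintype.card (BVar k q) := by
  set x0 := mixed j y (fun _ => false) with hx0
  obtain ⟨g, hg, hg1⟩ := C.flip out x0
    {x | x0 ≤ x ∧ (out.eval x (C.vals x) = false → C.probes x = C.probes x0)}
    (fun x hx => hx.1) (fun x hx => hx.2)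
  have hg' : MComp (VB (BVar k q)) s (fun w => g (mixed j y w)) := by
    refine mixed_comp j y ?_
    obtain ⟨L, hL, hLs, h⟩ := hg
    exact ⟨L, hL, hLs.trans hs, h⟩
  have hbase := base (a := endL) (b := endR) (q := q) (D := D) hε0 end_inj hD hz hq hε hl hg'
  have hcK : Fintype.card (Fin k ⊕ Fin k) = k + k := by
    rw [Fintype.card_sum, Fintype.card_fin]
  rw [hcK] at hbase
  -- the two sets
  have hA : (univ.filter fun c : Fin k ⊕ Fin k → Fin q =>
        out.eval (mixed j y (posT endL endR c)) (C.vals (mixed j y (posT endL endR c))) = true) ⊆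
      (univ.filter fun c : Fin k ⊕ Fin k → Fin q => g (mixed j y (posT endL endR c)) = true) := by
    intro c hc
    rw [mem_filter] at hc ⊢
    refine ⟨mem_univ _, ?_⟩
    rw [hg1]
    · exact hc.2
    · refine ⟨mixed_mono j y _, fun h => ?_⟩
      rw [hc.2] at h
      exact absurd h (by simp)
  have hB : (univ.filter fun w : BVar k q → Fin D =>
        out.eval (mixed j y (negT w)) (C.vals (mixed j y (negT w))) = false ∧
          C.probes (mixed j y (negT w)) = C.probes x0) ⊆
      (univ.filter fun w : BVar k q → Fin D => g (mixed j y (negT w)) = false) := by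
    intro w hw
    rw [mem_filter] at hw ⊢
    refine ⟨mem_univ _, ?_⟩
    rw [hg1]
    · exact hw.2.1
    · exact ⟨mixed_mono j y _, fun _ => hw.2.2⟩
  have hqR : (0 : ℝ) < q := by
    have : 0 < l * z := Nat.mul_pos (by omega) (by omega)
    have h : 0 < q := by omega
    exact_mod_cast h
  have hDR : (0 : ℝ) < D := by exact_mod_cast hD
  have hqp : (0 : ℝ) < (q : ℝ) ^ (k + k) := by positivity
  have hDp : (0 : ℝ) < (D : ℝ) ^ Fintype.card (BVar k q) := by positivity
  have hA1 : ((univ.filter fun c : Fin k ⊕ Fin k → Fin q =>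
        out.eval (mixed j y (posT endL endR c)) (C.vals (mixed j y (posT endL endR c))) =
          true).card : ℝ) ≤ (q : ℝ) ^ (k + k) := by
    have h1 : (univ.filter fun c : Fin k ⊕ Fin k → Fin q =>
        out.eval (mixed j y (posT endL endR c)) (C.vals (mixed j y (posT endL endR c))) =
          true).card ≤ q ^ (k + k) := by
      refine (card_le_univ _).trans ?_
      rw [Fintype.card_fun, hcK, Fintype.card_fin]
    exact_mod_cast h1
  have hB1 : ((univ.filter fun w : BVar k q → Fin D =>
        out.eval (mixed j y (negT w)) (C.vals (mixed j y (negT w))) = false ∧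
          C.probes (mixed j y (negT w)) = C.probes x0).card : ℝ) ≤
      (D : ℝ) ^ Fintype.card (BVar k q) := by
    have h1 : (univ.filter fun w : BVar k q → Fin D =>
        out.eval (mixed j y (negT w)) (C.vals (mixed j y (negT w))) = false ∧
          C.probes (mixed j y (negT w)) = C.probes x0).card ≤ D ^ Fintype.card (BVar k q) := by
      refine (card_le_univ _).trans ?_
      rw [Fintype.card_fun, Fintype.card_fin]
    exact_mod_cast h1
  rcases hbase with hb | hb
  · have h1 : ((univ.filter fun c : Fin k ⊕ Fin k → Fin q =>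
        out.eval (mixed j y (posT endL endR c)) (C.vals (mixed j y (posT endL endR c))) =
          true).card : ℝ) ≤ δ * (q : ℝ) ^ (k + k) := by
      have h2 := (Nat.cast_le (α := ℝ)).mpr (card_le_card hA)
      exact h2.trans (hb.trans hδ1)
    have h2 := mul_le_mul_of_nonneg_right h1 hDp.le
    have h3 := mul_le_mul_of_nonneg_right hB1 hqp.le
    calc _ ≤ δ * (q : ℝ) ^ (k + k) * (D : ℝ) ^ Fintype.card (BVar k q) +
          (D : ℝ) ^ Fintype.card (BVar k q) * (q : ℝ) ^ (k + k) := add_le_add h2 h3
      _ = _ := by ring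
  · have h1 : ((univ.filter fun w : BVar k q → Fin D =>
        out.eval (mixed j y (negT w)) (C.vals (mixed j y (negT w))) = false ∧
          C.probes (mixed j y (negT w)) = C.probes x0).card : ℝ) ≤
        δ * (D : ℝ) ^ Fintype.card (BVar k q) := by
      have h2 := (Nat.cast_le (α := ℝ)).mpr (card_le_card hB)
      exact h2.trans (hb.trans hδ2)
    have h2 := mul_le_mul_of_nonneg_right hA1 hDp.le
    have h3 := mul_le_mul_of_nonneg_right h1 hqp.le
    calc _ ≤ (q : ℝ) ^ (k + k) * (D : ℝ) ^ Fintype.card (BVar k q) +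
          δ * (D : ℝ) ^ Fintype.card (BVar k q) * (q : ℝ) ^ (k + k) := add_le_add h2 h3
      _ = _ := by ring

/-- the positive inputs contain a biclique -/
theorem bicl_pos (j : Fin (M * M)) (y : Var k M q → Fin D) (c : Fin k ⊕ Fin k → Fin q) :
    Bicl (mixed j y (posT endL endR c)) := by
  refine ⟨fun s => ((finProdFinEquiv.symm j).1, c (Sum.inl s)),
    fun t => ((finProdFinEquiv.symm j).2, c (Sum.inr t)), fun s t => ?_⟩
  have h1 : blk ((s, ((finProdFinEquiv.symm j).1, c (Sum.inl s))),
      (t, ((finProdFinEquiv.symm j).2, c (Sum.inr t)))) = j := by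
    change finProdFinEquiv (finProdFinEquiv.symm j) = j
    exact Equiv.apply_symm_apply _ _
  simp only [mixed, h1, lt_irrefl, if_false, if_true]
  simp [posT, endL, endR, loc]

open Classical in
/-- few negative inputs contain a biclique -/
theorem bicl_neg (hD : 0 < D) (A : Finset (Var k M q → Fin D))
    (hA : ∀ y ∈ A, Bicl (fun v => decide ((y v : ℕ) ≠ 0))) :
    (A.card : ℝ) ≤ ((M * q : ℕ) : ℝ) ^ (k + k) * (1 - 1 / (D : ℝ)) ^ (k * k) *
      (D : ℝ) ^ Fintype.card (Var k M q) := by
  let S : (Fin k → Fin M × Fin q) × (Fin k → Fin M × Fin q) → Finset (Var k M q) := fun p =>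
    univ.image fun st : Fin k × Fin k => ((st.1, p.1 st.1), (st.2, p.2 st.2))
  have hS : ∀ p, (S p).card = k * k := by
    intro p
    rw [card_image_of_injective, card_univ, Fintype.card_prod, Fintype.card_fin]
    rintro ⟨s, t⟩ ⟨s', t'⟩ h
    simp only [Prod.mk.injEq] at h
    simp [h.1.1, h.2.1]
  have h1 : A ⊆ (univ : Finset ((Fin k → Fin M × Fin q) × (Fin k → Fin M × Fin q))).biUnion
      fun p => univ.filter fun y : Var k M q → Fin D => ∀ e ∈ S p, (y e : ℕ) ≠ 0 := by
    intro y hy
    obtain ⟨α, β, h⟩ := hA y hy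
    rw [mem_biUnion]
    refine ⟨(α, β), mem_univ _, ?_⟩
    rw [mem_filter]
    refine ⟨mem_univ _, ?_⟩
    intro e he
    obtain ⟨st, _, rfl⟩ := mem_image.mp he
    simpa using h st.1 st.2
  have h2 := (card_le_card h1).trans card_biUnion_le
  have h3 : (A.card : ℝ) ≤ ∑ p : (Fin k → Fin M × Fin q) × (Fin k → Fin M × Fin q),
      ((univ.filter fun y : Var k M q → Fin D => ∀ e ∈ S p, (y e : ℕ) ≠ 0).card : ℝ) := by
    exact_mod_cast h2
  refine h3.trans (le_of_eq ?_)
  have h4 : ∀ p, ((univ.filter fun y : Var k M q → Fin D => ∀ e ∈ S p, (y e : ℕ) ≠ 0).card : ℝ) =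
      (1 - 1 / (D : ℝ)) ^ (k * k) * (D : ℝ) ^ Fintype.card (Var k M q) := by
    intro p
    have := card_nonzero (D := D) (S p) hD
    rw [hS] at this
    convert this
  rw [sum_congr rfl fun p _ => h4 p, sum_const, card_univ, nsmul_eq_mul, Fintype.card_prod,
    Fintype.card_fun, Fintype.card_prod, Fintype.card_fin, Fintype.card_fin, Fintype.card_fin]
  push_cast
  rw [pow_add]
  ring

end

/-- the parameters of the test inputs -/
abbrev Tst (k M q D : ℕ) : Type :=
  Bool × Fin (M * M) × (Var k M q → Fin D) × (Fin k ⊕ Fin k → Fin q)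

/-- the test inputs -/
def inp {k M q D : ℕ} (l : Tst k M q D) : Var k M q → Bool :=
  if l.1 = true then mixed l.2.1 l.2.2.1 (posT endL endR l.2.2.2)
  else mixed l.2.1 l.2.2.1 (negT (part l.2.1 l.2.2.1))

open Classical in
/-- The hard distribution. -/
theorem hard {k M q D l z s : ℕ} {ε δ : ℝ} (hM : 0 < M) (hε0 : 0 ≤ ε) (hD : 0 < D) (hz : 2 ≤ z)
    (hq : 2 * (l * z) ≤ q) (hε : (1 - (1 - 1 / (D : ℝ)) ^ (l * l)) ^ z ≤ ε) (hl : 2 ≤ l)
    (hδ1 : s * stepP (Fin k ⊕ Fin k) q l z + 2 * (l * z) / q * (q : ℝ) ^ (k + k) ≤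
      δ * (q : ℝ) ^ (k + k))
    (hδ2 : (s + (Fintype.card (BVar k q) + 2)) * stepN (Fin k ⊕ Fin k) q (BVar k q) D l ε ≤
      δ * (D : ℝ) ^ Fintype.card (BVar k q))
    {N : ℕ} (C : Circuit (Var k M q) N) (out : Wire (Var k M q) N)
    (hs : C.size + C.fanins.sum ≤ s) :
    ((univ.filter fun t : Tst k M q D => (out.eval (inp t) (C.vals (inp t)) = true ↔
        Bicl (inp t))).card : ℝ) ≤
      1 / 2 * (1 + δ + ((M * q : ℕ) : ℝ) ^ (k + k) * (1 - 1 / (D : ℝ)) ^ (k * k) +
        (((C.fanins.map (· + 1)).prod : ℕ) : ℝ) / (M : ℝ) ^ 2) * Fintype.card (Tst k M q D) := by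
  set F : (Var k M q → Bool) → Bool := fun x => out.eval x (C.vals x) with hF
  set τ : ℝ := ((M * q : ℕ) : ℝ) ^ (k + k) * (1 - 1 / (D : ℝ)) ^ (k * k) with hτ
  set Pr : ℕ := (C.fanins.map (· + 1)).prod with hPr
  have hqR : (0 : ℝ) < q := by
    have : 0 < l * z := Nat.mul_pos (by omega) (by omega)
    have h : 0 < q := by omega
    exact_mod_cast h
  have hDR : (0 : ℝ) < D := by exact_mod_cast hD
  have hMR : (0 : ℝ) < M := by exact_mod_cast hM
  have hqp : (0 : ℝ) < (q : ℝ) ^ (k + k) := by positivity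
  have hDp : (0 : ℝ) < (D : ℝ) ^ Fintype.card (BVar k q) := by positivity
  have hAp : (0 : ℝ) < (D : ℝ) ^ Fintype.card (Var k M q) := by positivity
  have hcK : Fintype.card (Fin k ⊕ Fin k) = k + k := by
    rw [Fintype.card_sum, Fintype.card_fin]
  have hcc : Fintype.card (Fin k ⊕ Fin k → Fin q) = q ^ (k + k) := by
    rw [Fintype.card_fun, hcK, Fintype.card_fin]
  have hcy : Fintype.card (Var k M q → Fin D) = D ^ Fintype.card (Var k M q) := by
    rw [Fintype.card_fun, Fintype.card_fin]
  -- the quantities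
  let a : Fin (M * M) → ℕ := fun j => ∑ y : Var k M q → Fin D,
    (univ.filter fun c : Fin k ⊕ Fin k → Fin q => F (mixed j y (posT endL endR c)) = true).card
  let b : Fin (M * M) → ℕ := fun j => (univ.filter fun y : Var k M q → Fin D =>
    F (chn y ((j : ℕ) + 1)) = false ∧ C.probes (chn y ((j : ℕ) + 1)) = C.probes (chn y j)).card
  let ch : Fin (M * M) → ℕ := fun j => (univ.filter fun y : Var k M q → Fin D =>
    C.probes (chn y ((j : ℕ) + 1)) ≠ C.probes (chn y j)).card
  let tt : Fin (M * M) → ℕ := fun j => (univ.filter fun y : Var k M q → Fin D =>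
    Bicl (chn y ((j : ℕ) + 1))).card
  -- one block
  have h1 : ∀ j, (a j : ℝ) + b j * (q : ℝ) ^ (k + k) ≤
      (1 + δ) * (q : ℝ) ^ (k + k) * (D : ℝ) ^ Fintype.card (Var k M q) := by
    intro j
    have h2 : ∀ y : Var k M q → Fin D, _ := fun y =>
      one_block (k := k) (M := M) hε0 hD hz hq hε hl hδ1 hδ2 C out hs j y
    have h3 := sum_le_sum (fun y (_ : y ∈ (univ : Finset (Var k M q → Fin D))) => h2 y)
    rw [sum_add_distrib, ← sum_mul, ← sum_mul, sum_const, card_univ, hcy, nsmul_eq_mul] at h3
    have h4 := card_upd (k := k) (M := M) (q := q) (D := D) j (fun y =>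
      F (chn y ((j : ℕ) + 1)) = false ∧ C.probes (chn y ((j : ℕ) + 1)) = C.probes (chn y j))
    have h5 : ∀ (y : Var k M q → Fin D) (w : BVar k q → Fin D),
        chn (upd j y w) ((j : ℕ) + 1) = mixed j y (negT w) := by
      intro y w
      rw [← mixed_part, part_upd, mixed_upd]
    have h6 : ∀ (y : Var k M q → Fin D) (w : BVar k q → Fin D),
        chn (upd j y w) (j : ℕ) = mixed j y (fun _ => false) := by
      intro y w
      rw [← mixed_zero, mixed_upd]
    simp only [h5, h6] at h4
    have h7 : ∑ y : Var k M q → Fin D, (((univ.filter fun w : BVar k q → Fin D =>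
        out.eval (mixed j y (negT w)) (C.vals (mixed j y (negT w))) = false ∧
          C.probes (mixed j y (negT w)) = C.probes (mixed j y (fun _ => false))).card : ℕ) : ℝ) =
        (b j : ℝ) * (D : ℝ) ^ Fintype.card (BVar k q) := by
      have h8 := congrArg (Nat.cast (R := ℝ)) h4
      push_cast at h8
      rw [← h8]
    rw [h7] at h3
    have h9 : ∑ y : Var k M q → Fin D, (((univ.filter fun c : Fin k ⊕ Fin k → Fin q =>
        out.eval (mixed j y (posT endL endR c)) (C.vals (mixed j y (posT endL endR c))) =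
          true).card : ℕ) : ℝ) = (a j : ℝ) := by
      simp only [a]
      push_cast
      rfl
    rw [h9] at h3
    push_cast at h3
    have h10 : ((a j : ℝ) + b j * (q : ℝ) ^ (k + k)) * (D : ℝ) ^ Fintype.card (BVar k q) ≤
        ((1 + δ) * (q : ℝ) ^ (k + k) * (D : ℝ) ^ Fintype.card (Var k M q)) *
          (D : ℝ) ^ Fintype.card (BVar k q) := by
      calc _ = (a j : ℝ) * (D : ℝ) ^ Fintype.card (BVar k q) +
            (b j : ℝ) * (D : ℝ) ^ Fintype.card (BVar k q) * (q : ℝ) ^ (k + k) := by ring
        _ ≤ _ := h3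
        _ = _ := by ring
    exact le_of_mul_le_mul_right h10 hDp
  -- the number of changes
  have h2 : ∑ j, (ch j : ℝ) ≤ (Pr : ℝ) * (D : ℝ) ^ Fintype.card (Var k M q) := by
    have h3 : ∑ j, ch j = ∑ y : Var k M q → Fin D, (univ.filter fun j : Fin (M * M) =>
        C.probes (chn y ((j : ℕ) + 1)) ≠ C.probes (chn y j)).card := by
      simp only [ch, card_filter]
      rw [sum_comm]
    have h4 : ∀ y : Var k M q → Fin D, (univ.filter fun j : Fin (M * M) =>
        C.probes (chn y ((j : ℕ) + 1)) ≠ C.probes (chn y j)).card ≤ Pr := by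
      intro y
      have h5 := changes_le C (chn y) (chn_mono y) (M * M)
      have h6 := C.rank_lt (chn y (M * M))
      have h7 : (univ.filter fun j : Fin (M * M) =>
          C.probes (chn y ((j : ℕ) + 1)) ≠ C.probes (chn y j)).card ≤
          ((range (M * M)).filter fun i => C.probes (chn y (i + 1)) ≠ C.probes (chn y i)).card := by
        refine card_le_card_of_injOn (fun j => (j : ℕ)) ?_ (fun j _ j' _ h => Fin.ext h)
        intro j hj
        rw [mem_coe, mem_filter] at hj
        rw [mem_coe, mem_filter, mem_range]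
        exact ⟨j.2, hj.2⟩
      omega
    have h5 : ∑ j, ch j ≤ D ^ Fintype.card (Var k M q) * Pr := by
      rw [h3]
      refine (sum_le_sum fun y _ => h4 y).trans ?_
      rw [sum_const, card_univ, hcy, smul_eq_mul]
    have h6 : ((∑ j, ch j : ℕ) : ℝ) ≤ ((D ^ Fintype.card (Var k M q) * Pr : ℕ) : ℝ) := by
      exact_mod_cast h5
    push_cast at h6
    rw [mul_comm (Pr : ℝ)]
    exact h6
  -- bicliques in negative inputs
  have h3 : ∀ j, (tt j : ℝ) ≤ τ * (D : ℝ) ^ Fintype.card (Var k M q) := by
    intro j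
    refine bicl_neg (k := k) (M := M) (q := q) hD _ ?_
    intro y hy
    rw [mem_filter] at hy
    obtain ⟨_, α, β, h⟩ := hy
    refine ⟨α, β, fun s t => ?_⟩
    have := h s t
    simp only [chn, decide_eq_true_eq] at this
    simp only [decide_eq_true_eq]
    exact this.2
  -- the number of correct answers
  have h4 : (univ.filter fun t : Tst k M q D => (out.eval (inp t) (C.vals (inp t)) = true ↔
        Bicl (inp t))).card ≤ ∑ j, (a j + (b j + ch j + tt j) * q ^ (k + k)) := by
    have h5 : (univ.filter fun t : Tst k M q D => (out.eval (inp t) (C.vals (inp t)) = true ↔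
        Bicl (inp t))).card = ∑ j, (a j + (univ.filter fun y : Var k M q → Fin D =>
          (F (chn y ((j : ℕ) + 1)) = true ↔ Bicl (chn y ((j : ℕ) + 1)))).card * q ^ (k + k)) := by
      rw [card_filter, Fintype.sum_prod_type, Fintype.sum_bool, Fintype.sum_prod_type,
        Fintype.sum_prod_type, ← sum_add_distrib]
      refine sum_congr rfl fun j _ => ?_
      rw [Fintype.sum_prod_type, Fintype.sum_prod_type]
      congr 1
      · simp only [a]
        refine sum_congr rfl fun y _ => ?_
        rw [card_filter]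
        refine sum_congr rfl fun c _ => ?_
        simp only [inp, if_true]
        have h6 := bicl_pos (M := M) j y c
        simp only [h6, iff_true]
        rfl
      · rw [card_filter, sum_mul]
        refine sum_congr rfl fun y _ => ?_
        have h7 : ∀ c : Fin k ⊕ Fin k → Fin q,
            inp ((false, j, y, c) : Tst k M q D) = chn y ((j : ℕ) + 1) := by
          intro c
          simp only [inp]
          rw [if_neg (by simp), mixed_part]
        simp only [h7]
        rw [sum_const, card_univ, hcc, smul_eq_mul, mul_comm]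
    rw [h5]
    refine sum_le_sum fun j _ => ?_
    refine Nat.add_le_add_left (Nat.mul_le_mul_right _ ?_) _
    have h6 : (univ.filter fun y : Var k M q → Fin D =>
          (F (chn y ((j : ℕ) + 1)) = true ↔ Bicl (chn y ((j : ℕ) + 1)))) ⊆
        ((univ.filter fun y : Var k M q → Fin D =>
    F (chn y ((j : ℕ) + 1)) = false ∧ C.probes (chn y ((j : ℕ) + 1)) = C.probes (chn y j)) ∪
      (univ.filter fun y : Var k M q → Fin D =>
    C.probes (chn y ((j : ℕ) + 1)) ≠ C.probes (chn y j))) ∪
      (univ.filter fun y : Var k M q → Fin D => Bicl (chn y ((j : ℕ) + 1))) := by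
      intro y hy
      rw [mem_filter] at hy
      rw [mem_union, mem_union, mem_filter, mem_filter, mem_filter]
      by_cases hb : Bicl (chn y ((j : ℕ) + 1))
      · exact Or.inr ⟨mem_univ _, hb⟩
      · left
        by_cases hc : C.probes (chn y ((j : ℕ) + 1)) = C.probes (chn y j)
        · refine Or.inl ⟨mem_univ _, ?_, hc⟩
          have : ¬ F (chn y ((j : ℕ) + 1)) = true := fun h => hb (hy.2.mp h)
          simpa using this
        · exact Or.inr ⟨mem_univ _, hc⟩
    refine (card_le_card h6).trans ((card_union_le _ _).trans ?_)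
    exact Nat.add_le_add_right (card_union_le _ _) _
  have h5 : ((univ.filter fun t : Tst k M q D => (out.eval (inp t) (C.vals (inp t)) = true ↔
        Bicl (inp t))).card : ℝ) ≤
      ∑ j, ((a j : ℝ) + ((b j : ℝ) + ch j + tt j) * (q : ℝ) ^ (k + k)) := by
    exact_mod_cast h4
  have h6 : ∑ j, ((a j : ℝ) + ((b j : ℝ) + ch j + tt j) * (q : ℝ) ^ (k + k)) ≤
      ∑ j, (((1 + δ) * (q : ℝ) ^ (k + k) * (D : ℝ) ^ Fintype.card (Var k M q) +
        τ * (D : ℝ) ^ Fintype.card (Var k M q) * (q : ℝ) ^ (k + k)) +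
          (ch j : ℝ) * (q : ℝ) ^ (k + k)) := by
    refine sum_le_sum fun j _ => ?_
    have h7 := h1 j
    have h8 := mul_le_mul_of_nonneg_right (h3 j) hqp.le
    calc _ = ((a j : ℝ) + (b j : ℝ) * (q : ℝ) ^ (k + k)) + (tt j : ℝ) * (q : ℝ) ^ (k + k) +
          (ch j : ℝ) * (q : ℝ) ^ (k + k) := by ring
      _ ≤ _ := by linarith
  have h7 : ∑ j : Fin (M * M), (((1 + δ) * (q : ℝ) ^ (k + k) * (D : ℝ) ^ Fintype.card (Var k M q) +
        τ * (D : ℝ) ^ Fintype.card (Var k M q) * (q : ℝ) ^ (k + k)) +
          (ch j : ℝ) * (q : ℝ) ^ (k + k)) ≤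
      (M : ℝ) ^ 2 * (((1 + δ) * (q : ℝ) ^ (k + k) * (D : ℝ) ^ Fintype.card (Var k M q) +
        τ * (D : ℝ) ^ Fintype.card (Var k M q) * (q : ℝ) ^ (k + k))) +
        (Pr : ℝ) * (D : ℝ) ^ Fintype.card (Var k M q) * (q : ℝ) ^ (k + k) := by
    rw [sum_add_distrib, ← sum_mul, sum_const, card_univ, Fintype.card_fin, nsmul_eq_mul]
    push_cast
    have := mul_le_mul_of_nonneg_right h2 hqp.le
    have h8 : (M : ℝ) * M = (M : ℝ) ^ 2 := by ring
    rw [h8]
    linarith
  refine (h5.trans (h6.trans h7)).trans (le_of_eq ?_)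
  have h8 : (Fintype.card (Tst k M q D) : ℝ) =
      2 * (M : ℝ) ^ 2 * ((D : ℝ) ^ Fintype.card (Var k M q) * (q : ℝ) ^ (k + k)) := by
    rw [Fintype.card_prod, Fintype.card_prod, Fintype.card_prod, hcy, hcc, Fintype.card_bool,
      Fintype.card_fin]
    push_cast
    ring
  rw [h8]
  field_simp

end Pool.Agent.V7H70.Bic
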