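import Pool.Agent.V7H70.Bic.Hard

/-!
# Choice of the parameters
-/

set_option autoImplicit false

namespace Pool.Agent.V7H70.Bic

open Finset Pool.Agent.H520R2 Pool.Agent.H520R2.NM

theorem nsets_le (V : Type) [Fintype V] [DecidableEq V] (l : ℕ) :
    nsets V l ≤ (Fintype.card V + 1) ^ l := by
  classical
  have h1 : ((univ : Finset (Finset V)).filter fun S => S.card ≤ l).card ≤
      (univ : Finset (Fin l → Option V)).card := by
    refine card_le_card_of_surjOn (fun f => univ.filter fun v => ∃ i, f i = some v) ?_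
    intro S hS
    rw [mem_coe, mem_filter] at hS
    refine ⟨fun i => S.toList[i.val]?, by simp, ?_⟩
    ext v
    simp only [mem_filter, mem_univ, true_and]
    rw [← Finset.mem_toList (s := S), List.mem_iff_getElem?]
    constructor
    · rintro ⟨i, hi⟩
      exact ⟨i.val, hi⟩
    · rintro ⟨i, hi⟩
      have h2 : i < S.toList.length := by
        by_contra hno
        rw [List.getElem?_eq_none (by omega)] at hi
        simp at hi
      rw [Finset.length_toList] at h2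
      exact ⟨⟨i, by omega⟩, hi⟩
  unfold nsets
  refine h1.trans ?_
  rw [card_univ, Fintype.card_fun, Fintype.card_option, Fintype.card_fin]

open Classical in
/-- The hard distribution with explicit parameters. -/
theorem hard_t (t d M : ℕ) (ht : 2 ≤ t) (hd : 1 ≤ d) (hM : 0 < M)
    (hbig : t ^ (20 * d + 24) ≤ 2 ^ t) {N : ℕ}
    (C : Circuit (Var (t ^ (2 * d + 1)) M (4 * t ^ (4 * d + 2))) N)
    (out : Wire (Var (t ^ (2 * d + 1)) M (4 * t ^ (4 * d + 2))) N)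
    (hs : C.size + C.fanins.sum ≤ 2 ^ t ^ d) :
    ((univ.filter fun r : Tst (t ^ (2 * d + 1)) M (4 * t ^ (4 * d + 2)) (2 * t ^ (2 * d)) =>
        (out.eval (inp r) (C.vals (inp r)) = true ↔ Bicl (inp r))).card : ℝ) ≤
      1 / 2 * (1 + 1 / (t : ℝ) ^ (2 * d + 1) +
        ((M * (4 * t ^ (4 * d + 2)) : ℕ) : ℝ) ^ (t ^ (2 * d + 1) + t ^ (2 * d + 1)) *
          (1 - 1 / ((2 * t ^ (2 * d) : ℕ) : ℝ)) ^ (t ^ (2 * d + 1) * t ^ (2 * d + 1)) +
        (((C.fanins.map (· + 1)).prod : ℕ) : ℝ) / (M : ℝ) ^ 2) *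
        Fintype.card (Tst (t ^ (2 * d + 1)) M (4 * t ^ (4 * d + 2)) (2 * t ^ (2 * d))) := by
  have ht0 : 0 < t := by omega
  have htR : (2 : ℝ) ≤ t := by exact_mod_cast ht
  have htR0 : (0 : ℝ) < t := by linarith
  have hl2 : 2 ≤ t ^ d := ht.trans (Nat.le_self_pow (by omega) t)
  have hz2 : 2 ≤ t ^ (d + 1) := ht.trans (Nat.le_self_pow (by omega) t)
  have hlz : t ^ d * t ^ (d + 1) = t ^ (2 * d + 1) := by rw [← pow_add]; congr 1; ring
  have hq4 : 4 * t ^ (4 * d + 2) = 4 * (t ^ (2 * d + 1)) ^ 2 := by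
    rw [← pow_mul]; congr 2; ring
  have hw2 : 2 ≤ t ^ (2 * d + 1) := ht.trans (Nat.le_self_pow (by omega) t)
  have hwR : (2 : ℝ) ≤ (t : ℝ) ^ (2 * d + 1) := by exact_mod_cast hw2
  have hll : t ^ d * t ^ d = t ^ (2 * d) := by rw [← pow_add]; congr 1; ring
  have hqR : ((4 * t ^ (4 * d + 2) : ℕ) : ℝ) = 4 * ((t : ℝ) ^ (2 * d + 1)) ^ 2 := by
    rw [hq4]; push_cast; ring
  have hqpos : (0 : ℝ) < ((4 * t ^ (4 * d + 2) : ℕ) : ℝ) := by positivity
  refine hard (l := t ^ d) (z := t ^ (d + 1)) (s := 2 ^ t ^ d) (ε := (1 / 2) ^ (t ^ (d + 1)))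
    hM (by positivity) (by positivity) hz2 ?_ ?_ hl2 ?_ ?_ C out hs
  · rw [hlz, hq4]
    nlinarith
  · rw [hll]
    have hbern : (1 : ℝ) / 2 ≤ (1 - 1 / ((2 * t ^ (2 * d) : ℕ) : ℝ)) ^ (t ^ (2 * d)) := by
      have h1 : (0 : ℝ) < ((t ^ (2 * d) : ℕ) : ℝ) := by positivity
      have h1' : (1 : ℝ) ≤ ((t ^ (2 * d) : ℕ) : ℝ) := by exact_mod_cast Nat.one_le_pow _ _ ht0
      have h2 := one_add_mul_le_pow (a := -(1 / ((2 * t ^ (2 * d) : ℕ) : ℝ))) (by
        have : 1 / ((2 * t ^ (2 * d) : ℕ) : ℝ) ≤ 1 := by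
          rw [div_le_one (by positivity)]
          push_cast at h1' ⊢
          linarith
        linarith) (t ^ (2 * d))
      have h3 : 1 + ((t ^ (2 * d) : ℕ) : ℝ) * -(1 / ((2 * t ^ (2 * d) : ℕ) : ℝ)) = 1 / 2 := by
        push_cast
        push_cast at h1
        field_simp
        norm_num
      rw [h3] at h2
      have h4 : (1 : ℝ) + -(1 / ((2 * t ^ (2 * d) : ℕ) : ℝ)) =
        1 - 1 / ((2 * t ^ (2 * d) : ℕ) : ℝ) := by ring
      rw [h4] at h2
      exact h2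
    refine pow_le_pow_left₀ ?_ (by linarith) _
    have h5 : (1 - 1 / ((2 * t ^ (2 * d) : ℕ) : ℝ)) ^ (t ^ (2 * d)) ≤ 1 := by
      have h6 : (1 : ℝ) ≤ ((2 * t ^ (2 * d) : ℕ) : ℝ) := by
        have : 1 ≤ 2 * t ^ (2 * d) := by
          have := Nat.one_le_pow (2 * d) t ht0
          omega
        exact_mod_cast this
      refine pow_le_one₀ ?_ ?_
      · rw [sub_nonneg, div_le_one (by linarith)]; exact h6
      · have : 0 ≤ 1 / ((2 * t ^ (2 * d) : ℕ) : ℝ) := by positivity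
        linarith
    linarith
  · -- positive tests
    unfold stepP
    have hcK : Fintype.card (Fin (t ^ (2 * d + 1)) ⊕ Fin (t ^ (2 * d + 1))) =
        t ^ (2 * d + 1) + t ^ (2 * d + 1) := by
      rw [Fintype.card_sum, Fintype.card_fin]
    rw [hcK]
    have hP : (0 : ℝ) < ((4 * t ^ (4 * d + 2) : ℕ) : ℝ) ^ (t ^ (2 * d + 1) + t ^ (2 * d + 1)) := by
      positivity
    rw [← mul_assoc, ← add_mul]
    refine mul_le_mul_of_nonneg_right ?_ hP.le
    have hlzR : ((t ^ d : ℕ) : ℝ) * ((t ^ (d + 1) : ℕ) : ℝ) = (t : ℝ) ^ (2 * d + 1) := by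
      rw [← Nat.cast_mul, hlz]; push_cast; ring
    rw [hlzR, hqR]
    set w : ℝ := (t : ℝ) ^ (2 * d + 1) with hw
    have hw0 : 0 < w := by linarith
    clear_value w
    have h1 : (2 * w ^ (t ^ d)) ^ 2 / (4 * w ^ 2) ^ (t ^ d + 1) = 1 / (4 ^ (t ^ d) * w ^ 2) := by
      rw [mul_pow 4 (w ^ 2), pow_succ 4, pow_succ (w ^ 2)]
      have h2 : (w ^ 2) ^ (t ^ d) = (w ^ (t ^ d)) ^ 2 := pow_right_comm w 2 (t ^ d)
      rw [h2]
      field_simp
      norm_num
    rw [h1]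
    have h2 : ((2 ^ t ^ d : ℕ) : ℝ) * (1 / (4 ^ (t ^ d) * w ^ 2)) ≤ 1 / (2 * w) := by
      have h3 : (4 : ℝ) ^ (t ^ d) = 2 ^ (t ^ d) * 2 ^ (t ^ d) := by
        rw [← mul_pow]; norm_num
      rw [h3]
      push_cast
      have h4 : (2 : ℝ) ^ t ^ d * (1 / (2 ^ t ^ d * 2 ^ t ^ d * w ^ 2)) =
        1 / (2 ^ t ^ d * w ^ 2) := by
        field_simp
      rw [h4]
      refine one_div_le_one_div_of_le (by positivity) ?_
      have h5 : (1 : ℝ) ≤ 2 ^ t ^ d := one_le_pow₀ (by norm_num)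
      have h6 : 2 * w ≤ w ^ 2 := by nlinarith
      nlinarith
    have h3 : 2 * w / (4 * w ^ 2) = 1 / (2 * w) := by
      field_simp
      norm_num
    rw [h3]
    have h4 : 1 / w = 1 / (2 * w) + 1 / (2 * w) := by
      field_simp
      norm_num
    rw [h4]
    linarith
  · -- negative tests
    unfold stepN
    have hDp : (0 : ℝ) < ((2 * t ^ (2 * d) : ℕ) : ℝ) ^
        Fintype.card (BVar (t ^ (2 * d + 1)) (4 * t ^ (4 * d + 2))) := by positivity
    rw [← mul_assoc, ← mul_assoc]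
    refine mul_le_mul_of_nonneg_right ?_ hDp.le
    have hcE : Fintype.card (BVar (t ^ (2 * d + 1)) (4 * t ^ (4 * d + 2))) =
        (t ^ (2 * d + 1) * (4 * t ^ (4 * d + 2))) * (t ^ (2 * d + 1) * (4 * t ^ (4 * d + 2))) := by
      rw [Fintype.card_prod, Fintype.card_prod, Fintype.card_fin, Fintype.card_fin]
    rw [hcE]
    have hns := nsets_le ((Fin (t ^ (2 * d + 1)) ⊕ Fin (t ^ (2 * d + 1))) ×
      Fin (4 * t ^ (4 * d + 2))) (t ^ d)
    rw [Fintype.card_prod, Fintype.card_sum, Fintype.card_fin, Fintype.card_fin] at hns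
    have e1 : t ^ (2 * d + 1) * (4 * t ^ (4 * d + 2)) = 4 * t ^ (6 * d + 3) := by
      have : t ^ (6 * d + 3) = t ^ (2 * d + 1) * t ^ (4 * d + 2) := by
        rw [← pow_add]; congr 1; ring
      rw [this]; ring
    have e2 : (t ^ (2 * d + 1) + t ^ (2 * d + 1)) * (4 * t ^ (4 * d + 2)) =
        8 * t ^ (6 * d + 3) := by
      have : t ^ (6 * d + 3) = t ^ (2 * d + 1) * t ^ (4 * d + 2) := by
        rw [← pow_add]; congr 1; ring
      rw [this]; ring
    rw [e2] at hns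
    rw [e1]
    have f1 : 16 ≤ t ^ 4 := by
      calc 16 = 2 ^ 4 := by norm_num
        _ ≤ t ^ 4 := Nat.pow_le_pow_left ht 4
    have f2 : 8 * t ^ (6 * d + 3) + 1 ≤ t ^ (6 * d + 7) := by
      have h1 : t ^ (6 * d + 7) = t ^ (6 * d + 3) * t ^ 4 := by rw [← pow_add]
      have h2 : 1 ≤ t ^ (6 * d + 3) := Nat.one_le_pow _ _ ht0
      rw [h1]
      nlinarith
    have f3 : nsets ((Fin (t ^ (2 * d + 1)) ⊕ Fin (t ^ (2 * d + 1))) ×
      Fin (4 * t ^ (4 * d + 2))) (t ^ d) ≤ (t ^ (6 * d + 7)) ^ (t ^ d) :=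
      hns.trans (Nat.pow_le_pow_left f2 _)
    have f4 : 2 ^ t ^ d + (4 * t ^ (6 * d + 3) * (4 * t ^ (6 * d + 3)) + 2) ≤
        (t ^ (12 * d + 16)) ^ (t ^ d) := by
      have hl1 : 1 ≤ t ^ d := Nat.one_le_pow _ _ ht0
      have g0 : t ^ (12 * d + 10) ≤ (t ^ (12 * d + 14)) ^ (t ^ d) := by
        rw [← pow_mul]
        refine Nat.pow_le_pow_right ht0 ?_
        nlinarith
      have g1 : 2 ^ t ^ d ≤ (t ^ (12 * d + 14)) ^ (t ^ d) := by
        refine Nat.pow_le_pow_left ?_ _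
        exact ht.trans (Nat.le_self_pow (by omega) t)
      have g2 : 4 * t ^ (6 * d + 3) * (4 * t ^ (6 * d + 3)) ≤ (t ^ (12 * d + 14)) ^ (t ^ d) := by
        refine le_trans ?_ g0
        have h1 : t ^ (12 * d + 10) = (t ^ (6 * d + 3) * t ^ (6 * d + 3)) * t ^ 4 := by
          rw [← pow_add, ← pow_add]; congr 1; ring
        rw [h1]
        calc _ = (t ^ (6 * d + 3) * t ^ (6 * d + 3)) * 16 := by ring
          _ ≤ _ := Nat.mul_le_mul_left _ f1
      have g3 : 2 ≤ (t ^ (12 * d + 14)) ^ (t ^ d) := by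
        refine le_trans ?_ g0
        exact ht.trans (Nat.le_self_pow (by omega) t)
      have g4 : (t ^ (12 * d + 16)) ^ (t ^ d) ≥ (t ^ (12 * d + 14)) ^ (t ^ d) * 4 := by
        have h1 : t ^ (12 * d + 16) = t ^ (12 * d + 14) * t ^ 2 := by rw [← pow_add]
        rw [h1, mul_pow]
        refine Nat.mul_le_mul_left _ ?_
        have h2 : 4 ≤ t ^ 2 := by nlinarith
        exact h2.trans (Nat.le_self_pow (by omega) _)
      omega
    have f5 : t ^ (2 * d + 1) ≤ (t ^ (2 * d + 1)) ^ (t ^ d) :=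
      Nat.le_self_pow (by omega) _
    have f6 : t ^ (2 * d + 1) * ((2 ^ t ^ d + (4 * t ^ (6 * d + 3) * (4 * t ^ (6 * d + 3)) + 2)) *
        nsets ((Fin (t ^ (2 * d + 1)) ⊕ Fin (t ^ (2 * d + 1))) ×
          Fin (4 * t ^ (4 * d + 2))) (t ^ d)) ≤ 2 ^ (t ^ (d + 1)) := by
      calc _ ≤ (t ^ (2 * d + 1)) ^ (t ^ d) * ((t ^ (12 * d + 16)) ^ (t ^ d) *
            (t ^ (6 * d + 7)) ^ (t ^ d)) := Nat.mul_le_mul f5 (Nat.mul_le_mul f4 f3)
        _ = (t ^ (20 * d + 24)) ^ (t ^ d) := by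
          rw [← mul_pow, ← mul_pow, ← pow_add, ← pow_add]
          congr 2
          ring
        _ ≤ (2 ^ t) ^ (t ^ d) := Nat.pow_le_pow_left hbig _
        _ = 2 ^ (t ^ (d + 1)) := by
          rw [← pow_mul]; congr 1; ring
    have f7 : (t : ℝ) ^ (2 * d + 1) * (((2 ^ t ^ d : ℕ) +
        (((4 * t ^ (6 * d + 3) * (4 * t ^ (6 * d + 3)) : ℕ) : ℝ) + 2)) *
        (nsets ((Fin (t ^ (2 * d + 1)) ⊕ Fin (t ^ (2 * d + 1))) ×
          Fin (4 * t ^ (4 * d + 2))) (t ^ d) : ℝ)) ≤ 2 ^ (t ^ (d + 1)) := by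
      exact_mod_cast f6
    have f8 : (0 : ℝ) < 2 ^ (t ^ (d + 1)) := by positivity
    rw [one_div_pow, mul_one_div, div_le_div_iff₀ f8 (by positivity), one_mul, mul_comm]
    exact f7

end Pool.Agent.V7H70.Bic
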