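import Mathlib

/-!
# Counting: independence of events on disjoint sets of coordinates
-/

set_option autoImplicit false

namespace Pool.Agent.V7H70.Bic

open Finset

section

variable {E : Type} [Fintype E] [DecidableEq E] {D : ℕ}

/-- Events that depend on disjoint sets of coordinates are independent. -/
theorem card_indep (I : Finset E) (Q R : (E → Fin D) → Prop) [DecidablePred Q] [DecidablePred R]
    (hQ : ∀ y y' : E → Fin D, (∀ e, e ∉ I → y e = y' e) → (Q y → Q y'))
    (hR : ∀ y y' : E → Fin D, (∀ e ∈ I, y e = y' e) → (R y → R y')) :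
    (univ.filter fun y => Q y ∧ R y).card * (univ : Finset (E → Fin D)).card =
      (univ.filter fun y => Q y).card * (univ.filter fun y => R y).card := by
  rw [← card_product, ← card_product]
  let mix : (E → Fin D) → (E → Fin D) → (E → Fin D) := fun y y' e => if e ∈ I then y' e else y e
  have m1 : ∀ y y' : E → Fin D, ∀ e ∈ I, mix y y' e = y' e := fun y y' e he => if_pos he
  have m2 : ∀ y y' : E → Fin D, ∀ e, e ∉ I → mix y y' e = y e := fun y y' e he => if_neg he
  have m3 : ∀ y y' : E → Fin D, mix (mix y y') (mix y' y) = y := by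
    intro y y'
    funext e
    by_cases he : e ∈ I
    · rw [m1 _ _ e he, m1 _ _ e he]
    · rw [m2 _ _ e he, m2 _ _ e he]
  refine card_bij' (fun p _ => (mix p.1 p.2, mix p.2 p.1)) (fun p _ => (mix p.1 p.2, mix p.2 p.1))
    ?_ ?_ ?_ ?_
  · rintro ⟨y, y'⟩ h
    rw [mem_product, mem_filter] at h
    rw [mem_product, mem_filter, mem_filter]
    exact ⟨⟨mem_univ _, hQ _ _ (fun e he => (m2 y y' e he).symm) h.1.2.1⟩,
      ⟨mem_univ _, hR _ _ (fun e he => (m1 y' y e he).symm) h.1.2.2⟩⟩
  · rintro ⟨y, y'⟩ h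
    rw [mem_product, mem_filter, mem_filter] at h
    rw [mem_product, mem_filter]
    exact ⟨⟨mem_univ _, hQ _ _ (fun e he => (m2 y y' e he).symm) h.1.2,
      hR _ _ (fun e he => (m1 y y' e he).symm) h.2.2⟩, mem_univ _⟩
  · rintro ⟨y, y'⟩ _
    exact Prod.ext (m3 y y') (m3 y' y)
  · rintro ⟨y, y'⟩ _
    exact Prod.ext (m3 y y') (m3 y' y)

/-- The number of `y` that do not vanish on `I`. -/
theorem card_nonzero (I : Finset E) (hD : 0 < D) :
    (((univ : Finset (E → Fin D)).filter fun y => ∀ e ∈ I, (y e : ℕ) ≠ 0).card : ℝ) =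
      (1 - 1 / (D : ℝ)) ^ I.card * (D : ℝ) ^ Fintype.card E := by
  have h1 : ((univ : Finset (E → Fin D)).filter fun y => ∀ e ∈ I, (y e : ℕ) ≠ 0) =
      Fintype.piFinset (fun e => if e ∈ I then (univ : Finset (Fin D)).filter (fun i : Fin D => (i : ℕ) ≠ 0)
        else univ) := by
    ext y
    simp only [mem_filter, mem_univ, true_and, Fintype.mem_piFinset]
    constructor
    · intro h e
      by_cases he : e ∈ I
      · simp [he, h e he]
      · simp [he]
    · intro h e he
      have := h e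
      rw [if_pos he] at this
      exact (mem_filter.mp this).2
  have h2 : ((univ : Finset (Fin D)).filter (fun i : Fin D => (i : ℕ) ≠ 0)).card = D - 1 := by
    have : ((univ : Finset (Fin D)).filter (fun i : Fin D => (i : ℕ) ≠ 0)) = univ.erase ⟨0, hD⟩ := by
      ext i
      simp [Fin.ext_iff]
    rw [this, card_erase_of_mem (mem_univ _), card_univ, Fintype.card_fin]
  have hD' : (0 : ℝ) < D := by exact_mod_cast hD
  rw [h1, Fintype.card_piFinset]
  have h3 : ∀ e : E, (if e ∈ I then (univ : Finset (Fin D)).filter (fun i : Fin D => (i : ℕ) ≠ 0)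
        else univ).card = if e ∈ I then D - 1 else D := by
    intro e
    split_ifs
    · exact h2
    · rw [card_univ, Fintype.card_fin]
  simp only [h3]
  rw [prod_ite, prod_const, prod_const]
  have h4 : (univ.filter fun e => e ∈ I).card = I.card := by
    congr 1; ext e; simp
  have h5 : (univ.filter fun e => e ∉ I).card + I.card = Fintype.card E := by
    have h6 : (univ.filter fun e => e ∉ I) = Iᶜ := by ext e; simp
    rw [h6, card_compl]
    exact Nat.sub_add_cancel (card_le_univ I)
  rw [h4, ← h5, pow_add]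
  have h7 : (1 - 1 / (D : ℝ)) = (D - 1) / D := by field_simp
  push_cast [Nat.cast_sub (show 1 ≤ D from hD)]
  rw [h7, div_pow]
  field_simp

/-- For pairwise disjoint sets `I s` of coordinates of size at most `L`, few `y` have a zero in each
of them. -/
theorem card_allzero {ι : Type} [DecidableEq ι] (P : Finset ι) (I : ι → Finset E) (L : ℕ)
    (hD : 0 < D)
    (hL : ∀ s ∈ P, (I s).card ≤ L) (hdis : ∀ s ∈ P, ∀ t ∈ P, s ≠ t → Disjoint (I s) (I t)) :
    (((univ : Finset (E → Fin D)).filter fun y => ∀ s ∈ P, ∃ e ∈ I s, (y e : ℕ) = 0).card : ℝ) ≤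
      (1 - (1 - 1 / (D : ℝ)) ^ L) ^ P.card * (D : ℝ) ^ Fintype.card E := by
  have hDR : (0 : ℝ) < D := by exact_mod_cast hD
  have hD1 : (1 : ℝ) ≤ D := by exact_mod_cast hD
  have hp0 : (0 : ℝ) ≤ 1 - 1 / (D : ℝ) := by
    rw [sub_nonneg, div_le_one hDR]; exact hD1
  have hp1 : 1 - 1 / (D : ℝ) ≤ 1 := by
    have : (0 : ℝ) ≤ 1 / (D : ℝ) := by positivity
    linarith
  have hpL : (1 - 1 / (D : ℝ)) ^ L ≤ 1 := pow_le_one₀ hp0 hp1
  have hu : ((univ : Finset (E → Fin D)).card : ℝ) = (D : ℝ) ^ Fintype.card E := by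
    rw [card_univ, Fintype.card_fun, Fintype.card_fin]
    push_cast; ring
  have hupos : (0 : ℝ) < (D : ℝ) ^ Fintype.card E := by positivity
  induction P using Finset.induction_on with
  | empty => simp
  | @insert s P hs ih =>
    have ih' := ih (fun t ht => hL t (mem_insert_of_mem ht))
      (fun t ht t' ht' => hdis t (mem_insert_of_mem ht) t' (mem_insert_of_mem ht'))
    have h1 : ((univ : Finset (E → Fin D)).filter fun y => ∀ t ∈ insert s P, ∃ e ∈ I t, (y e : ℕ) = 0) =
        (univ.filter fun y : E → Fin D => (∀ t ∈ P, ∃ e ∈ I t, (y e : ℕ) = 0) ∧ ∃ e ∈ I s, (y e : ℕ) = 0) := by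
      ext y
      simp only [mem_filter, mem_univ, true_and, forall_mem_insert]
      tauto
    have h2 := card_indep (D := D) (I s) (fun y => ∀ t ∈ P, ∃ e ∈ I t, (y e : ℕ) = 0)
      (fun y => ∃ e ∈ I s, (y e : ℕ) = 0)
      (by
        intro y y' h hy t ht
        obtain ⟨e, he, h0⟩ := hy t ht
        have hne : s ≠ t := fun hh => hs (hh ▸ ht)
        have hd := hdis s (mem_insert_self _ _) t (mem_insert_of_mem ht) hne
        refine ⟨e, he, ?_⟩
        rw [← h e (fun h' => (Finset.disjoint_left.mp hd) h' he)]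
        exact h0)
      (by
        rintro y y' h ⟨e, he, h0⟩
        exact ⟨e, he, by rw [← h e he]; exact h0⟩)
    have h3 : (((univ : Finset (E → Fin D)).filter fun y => ∃ e ∈ I s, (y e : ℕ) = 0).card : ℝ) ≤
        (1 - (1 - 1 / (D : ℝ)) ^ L) * (D : ℝ) ^ Fintype.card E := by
      have h4 := card_nonzero (D := D) (I s) hD
      have h5 := card_filter_add_card_filter_not (s := (univ : Finset (E → Fin D)))
        (fun y => ∀ e ∈ I s, (y e : ℕ) ≠ 0)
      have h6 : (univ.filter fun y : E → Fin D => ¬ ∀ e ∈ I s, (y e : ℕ) ≠ 0) =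
          (univ.filter fun y : E → Fin D => ∃ e ∈ I s, (y e : ℕ) = 0) := by
        ext y
        simp only [mem_filter, mem_univ, true_and]
        push Not
        rfl
      rw [h6] at h5
      have h7 : (((univ : Finset (E → Fin D)).filter fun y => ∀ e ∈ I s, (y e : ℕ) ≠ 0).card : ℝ) +
          (((univ : Finset (E → Fin D)).filter fun y => ∃ e ∈ I s, (y e : ℕ) = 0).card : ℝ) =
          (D : ℝ) ^ Fintype.card E := by
        rw [← hu, ← h5]
        push_cast
        rfl
      have h8 : (1 - 1 / (D : ℝ)) ^ L ≤ (1 - 1 / (D : ℝ)) ^ (I s).card :=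
        pow_le_pow_of_le_one hp0 hp1 (hL s (mem_insert_self _ _))
      have h9 := mul_le_mul_of_nonneg_right h8 hupos.le
      rw [h4] at h7
      linarith
    rw [h1, card_insert_of_notMem hs, pow_succ]
    have h10 : ((univ.filter fun y : E → Fin D =>
        (∀ t ∈ P, ∃ e ∈ I t, (y e : ℕ) = 0) ∧ ∃ e ∈ I s, (y e : ℕ) = 0).card : ℝ) *
        (D : ℝ) ^ Fintype.card E =
        ((univ.filter fun y : E → Fin D => ∀ t ∈ P, ∃ e ∈ I t, (y e : ℕ) = 0).card : ℝ) *
        ((univ.filter fun y : E → Fin D => ∃ e ∈ I s, (y e : ℕ) = 0).card : ℝ) := by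
      rw [← hu]
      exact_mod_cast h2
    have hc0 : 0 ≤ 1 - (1 - 1 / (D : ℝ)) ^ L := by linarith
    have h11 := mul_le_mul ih' h3 (by positivity) (by positivity)
    rw [← h10] at h11
    have h12 : (1 - (1 - 1 / (D : ℝ)) ^ L) ^ #P * (D : ℝ) ^ Fintype.card E *
        ((1 - (1 - 1 / (D : ℝ)) ^ L) * (D : ℝ) ^ Fintype.card E) =
        ((1 - (1 - 1 / (D : ℝ)) ^ L) ^ #P * (1 - (1 - 1 / (D : ℝ)) ^ L) *
          (D : ℝ) ^ Fintype.card E) * (D : ℝ) ^ Fintype.card E := by ring
    rw [h12] at h11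
    exact le_of_mul_le_mul_right h11 hupos

theorem card_allzero' {ι : Type} [DecidableEq ι] (P : Finset ι) (I : ι → Finset E) (L : ℕ)
    (hD : 0 < D)
    (hL : ∀ s ∈ P, (I s).card ≤ L) (hdis : ∀ s ∈ P, ∀ t ∈ P, s ≠ t → Disjoint (I s) (I t))
    (A : Finset (E → Fin D)) (hA : ∀ y ∈ A, ∀ s ∈ P, ∃ e ∈ I s, (y e : ℕ) = 0) :
    (A.card : ℝ) ≤ (1 - (1 - 1 / (D : ℝ)) ^ L) ^ P.card * (D : ℝ) ^ Fintype.card E := by
  refine le_trans ?_ (card_allzero (D := D) P I L hD hL hdis)
  have h : A ⊆ (univ : Finset (E → Fin D)).filter fun y => ∀ s ∈ P, ∃ e ∈ I s, (y e : ℕ) = 0 := by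
    intro y hy
    rw [mem_filter]
    exact ⟨mem_univ _, hA y hy⟩
  exact_mod_cast card_le_card h

end

section

variable {K : Type} [Fintype K] [DecidableEq K] {q : ℕ}

/-- The number of functions whose graph contains `F` is at most `q ^ (|K| - |F|)`. -/
theorem card_graph (F : Finset (K × Fin q)) :
    (univ.filter fun c : K → Fin q => ∀ v ∈ F, c v.1 = v.2).card * q ^ F.card ≤
      q ^ Fintype.card K := by
  by_cases h : ∃ c0 : K → Fin q, ∀ v ∈ F, c0 v.1 = v.2
  · obtain ⟨c0, h0⟩ := h
    set J := F.image Prod.fst with hJ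
    have hJc : J.card = F.card := by
      apply card_image_of_injOn
      intro v hv w hw hvw
      have hvw' : v.1 = w.1 := hvw
      refine Prod.ext hvw' ?_
      rw [← h0 v hv, ← h0 w hw, hvw']
    have h1 : (univ.filter fun c : K → Fin q => ∀ v ∈ F, c v.1 = v.2) =
        Fintype.piFinset (fun κ => if κ ∈ J then ({c0 κ} : Finset (Fin q)) else univ) := by
      ext c
      simp only [mem_filter, mem_univ, true_and, Fintype.mem_piFinset]
      constructor
      · intro hc κ
        by_cases hκ : κ ∈ J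
        · rw [if_pos hκ, mem_singleton]
          obtain ⟨v, hv, rfl⟩ := mem_image.mp hκ
          rw [hc v hv, h0 v hv]
        · rw [if_neg hκ]; exact mem_univ _
      · intro hc v hv
        have := hc v.1
        rw [if_pos (mem_image_of_mem _ hv), mem_singleton] at this
        rw [this, h0 v hv]
    rw [h1, Fintype.card_piFinset]
    have h3 : ∀ κ : K, (if κ ∈ J then ({c0 κ} : Finset (Fin q)) else univ).card =
        if κ ∈ J then 1 else q := by
      intro κ
      split_ifs
      · exact card_singleton _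
      · rw [card_univ, Fintype.card_fin]
    simp only [h3]
    rw [prod_ite, prod_const_one, prod_const, one_mul]
    have h6 : (univ.filter fun κ => κ ∉ J) = Jᶜ := by ext e; simp
    rw [h6, card_compl, ← hJc, ← pow_add, Nat.sub_add_cancel (card_le_univ J)]
  · have h1 : (univ.filter fun c : K → Fin q => ∀ v ∈ F, c v.1 = v.2) = ∅ := by
      rw [filter_eq_empty_iff]
      intro c _ hc
      exact h ⟨c, hc⟩
    rw [h1]
    simp

end

end Pool.Agent.V7H70.Bic
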